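import Pool.Agent.L5helper49.PW.Nil
import Pool.Agent.L5helper49.PW.Newton

set_option autoImplicit false

/-!
# Newton's identities for the coefficients of `det (1 - Y N)`
-/

namespace Pool.Agent.L5helper49.LT

open Matrix Polynomial
open Pool.Agent.L5helper49.PW

section newton

variable {R : Type*} [CommRing R] {n : Type*} [Fintype n] [DecidableEq n]

/-- the substitution `Y ↦ Y (1 + s)` -/
noncomputable def stretch : R[X] →+* (PowerSeries R)[X] :=
  eval₂RingHom (C.comp (PowerSeries.C)) (C (PowerSeries.X : PowerSeries R) * (1 + X))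

lemma stretch_monomial (k : ℕ) (a : R) : stretch (monomial k a) =
    C (PowerSeries.monomial k a) * (1 + X) ^ k := by
  rw [stretch, coe_eval₂RingHom, eval₂_monomial, RingHom.comp_apply, mul_pow, ← C_pow, ← mul_assoc,
    ← C_mul]
  congr 2
  rw [PowerSeries.X_pow_eq, ← PowerSeries.monomial_zero_eq_C_apply,
    PowerSeries.monomial_mul_monomial, zero_add, mul_one]

lemma stretch_coeff_one (p : R[X]) (j : ℕ) :
    PowerSeries.coeff j ((stretch p).coeff 1) = j * p.coeff j := by
  induction p using Polynomial.induction_on' with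
  | add p q hp hq => rw [map_add, coeff_add, map_add, hp, hq, coeff_add, mul_add]
  | monomial k a =>
    rw [stretch_monomial, coeff_C_mul, coeff_one_add_X_pow, Nat.choose_one_right,
      mul_comm, ← nsmul_eq_mul, map_nsmul, PowerSeries.coeff_monomial, nsmul_eq_mul,
      coeff_monomial]
    by_cases h : j = k
    · rw [h]
    · rw [if_neg h, if_neg (Ne.symm h), mul_zero, mul_zero]

/-- **Newton's identities.** -/
lemma newton' (N : Matrix n n R) (j : ℕ) : ((j + 1 : ℕ) : R) * (charpolyRev N).coeff (j + 1) =
    -∑ i ∈ Finset.range (j + 1), (charpolyRev N).coeff i * (N ^ (j + 1 - i)).trace := by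
  obtain ⟨N', hN'⟩ : ∃ N' : Matrix n n (PowerSeries R), N' = N.map PowerSeries.C := ⟨_, rfl⟩
  obtain ⟨P, hP⟩ : ∃ P : Matrix n n (PowerSeries R), P = 1 - (PowerSeries.X : PowerSeries R) • N' :=
    ⟨_, rfl⟩
  obtain ⟨P₀, hP₀⟩ : ∃ P₀ : Matrix n n R[X], P₀ = 1 - (X : R[X]) • N.map C := ⟨_, rfl⟩
  have hP₀P : P₀.map (Polynomial.coeToPowerSeries.ringHom : R[X] →+* PowerSeries R) = P := by
    ext1 a b
    rw [hP₀, hP, Matrix.map_apply, Matrix.sub_apply, Matrix.sub_apply, map_sub, Matrix.smul_apply,
      Matrix.smul_apply, smul_eq_mul, smul_eq_mul, map_mul, hN', Matrix.map_apply,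
      Matrix.map_apply]
    congr 1
    · by_cases hab : a = b
      · subst hab; simp
      · simp [hab]
    · simp
  have hdet₀ : P₀.det = charpolyRev N := by rw [hP₀]; rfl
  have hdet : P.det = (charpolyRev N : PowerSeries R) := by
    rw [← hdet₀, ← hP₀P]
    exact (RingHom.map_det (Polynomial.coeToPowerSeries.ringHom : R[X] →+* PowerSeries R) P₀).symm
  obtain ⟨G, hG⟩ : ∃ G : Matrix n n (PowerSeries R),
    G = Matrix.of fun a b => PowerSeries.mk fun k => (N ^ k) a b := ⟨_, rfl⟩
  have hPG : P * G = 1 := by
    rw [hP, sub_mul, one_mul, smul_mul_assoc, sub_eq_iff_eq_add]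
    ext a b k
    rw [Matrix.add_apply, Matrix.smul_apply, smul_eq_mul, map_add, hG, Matrix.of_apply,
      PowerSeries.coeff_mk]
    rcases k with _ | k
    · rw [PowerSeries.coeff_zero_X_mul, add_zero, pow_zero]
      by_cases hab : a = b
      · subst hab; simp
      · simp [hab]
    · rw [PowerSeries.coeff_succ_X_mul, pow_succ', mul_apply, mul_apply, map_sum]
      have e2 : PowerSeries.coeff (k + 1) ((1 : Matrix n n (PowerSeries R)) a b) = 0 := by
        by_cases hab : a = b
        · subst hab; simp [PowerSeries.coeff_one]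
        · simp [hab]
      rw [e2, zero_add]
      apply Finset.sum_congr rfl
      intro c _
      rw [hN', map_apply, Matrix.of_apply, PowerSeries.coeff_C_mul, PowerSeries.coeff_mk]
  -- the derivative
  have h1 : stretch (charpolyRev N) = C (charpolyRev N : PowerSeries R) *
      charpolyRev ((PowerSeries.X : PowerSeries R) • (G * N')) := by
    have e1 : P.map C * (1 - (X : (PowerSeries R)[X]) • ((PowerSeries.X : PowerSeries R) •
        (G * N')).map C) = P₀.map (stretch : R[X] →+* (PowerSeries R)[X]) := by
      have e2 : P.map C * ((PowerSeries.X : PowerSeries R) • (G * N')).map C =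
          ((PowerSeries.X : PowerSeries R) • N').map (C : PowerSeries R →+* (PowerSeries R)[X]) := by
        rw [← Matrix.map_mul, mul_smul_comm, ← mul_assoc, hPG, one_mul]
      rw [mul_sub, mul_one, mul_smul_comm, e2, hP, hP₀]
      ext1 a b
      rw [Matrix.sub_apply, Matrix.smul_apply, map_apply, map_apply, map_apply, Matrix.sub_apply,
        Matrix.sub_apply, Matrix.smul_apply, Matrix.smul_apply, map_sub, map_sub, hN', map_apply,
        map_apply, smul_eq_mul, smul_eq_mul, smul_eq_mul, map_mul, map_mul]
      have e3 : (stretch (X : R[X]) : (PowerSeries R)[X]) =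
          C (PowerSeries.X : PowerSeries R) * (1 + X) := by
        simp [stretch]
      have e4 : (stretch (C (N a b)) : (PowerSeries R)[X]) = C (PowerSeries.C (N a b)) := by
        simp [stretch]
      have e5 : (stretch ((1 : Matrix n n R[X]) a b) : (PowerSeries R)[X]) =
          C ((1 : Matrix n n (PowerSeries R)) a b) := by
        by_cases hab : a = b
        · subst hab; simp
        · simp [hab]
      rw [e3, e4, e5]
      ring_nf
    have e6 := congrArg Matrix.det e1
    have e7 : (P.map C).det = (C (charpolyRev N : PowerSeries R) : (PowerSeries R)[X]) := by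
      have := RingHom.map_det (C : PowerSeries R →+* (PowerSeries R)[X]) P
      rw [hdet] at this
      exact this.symm
    have e8 : (P₀.map (stretch : R[X] →+* (PowerSeries R)[X])).det = stretch (charpolyRev N) := by
      have := RingHom.map_det (stretch : R[X] →+* (PowerSeries R)[X]) P₀
      rw [hdet₀] at this
      exact this.symm
    rw [det_mul, e7, e8] at e6
    exact e6.symm
  have h2 := congrArg (fun p => PowerSeries.coeff (j + 1) (p.coeff 1)) h1
  simp only [stretch_coeff_one, coeff_C_mul, coeff_charpolyRev_eq_neg_trace] at h2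
  rw [h2, mul_neg, map_neg, trace_smul, smul_eq_mul, ← mul_assoc, mul_comm _ PowerSeries.X,
    mul_assoc, PowerSeries.coeff_succ_X_mul, PowerSeries.coeff_mul,
    Finset.Nat.sum_antidiagonal_eq_sum_range_succ (fun a b => PowerSeries.coeff a
      (charpolyRev N : PowerSeries R) * PowerSeries.coeff b (G * N').trace)]
  congr 1
  apply Finset.sum_congr rfl
  intro i hi
  rw [Polynomial.coeff_coe]
  congr 1
  rw [Finset.mem_range] at hi
  rw [show j + 1 - i = (j - i) + 1 by omega, pow_succ, Matrix.trace, Matrix.trace, map_sum]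
  apply Finset.sum_congr rfl
  intro a _
  rw [diag_apply, diag_apply, mul_apply, mul_apply, map_sum]
  apply Finset.sum_congr rfl
  intro b _
  rw [hN', map_apply, PowerSeries.coeff_mul_C, hG, Matrix.of_apply, PowerSeries.coeff_mk]

end newton

section field

variable {K : Type*} [Field K] [CharZero K] {n : Type*} [Fintype n] [DecidableEq n]

/-- The traces of the powers determine the polynomial. -/
lemma rev_congr {M N : Matrix n n K} (h : ∀ k, (M ^ (k + 1)).trace = (N ^ (k + 1)).trace) :
    charpolyRev M = charpolyRev N := by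
  ext j
  induction j using Nat.strong_induction_on with
  | _ j ih =>
    rcases j with _ | j
    · rw [coeff_zero_eq_eval_zero, coeff_zero_eq_eval_zero, eval_charpolyRev, eval_charpolyRev]
    · have h1 := newton' M j
      have h2 := newton' N j
      have h3 : ∑ i ∈ Finset.range (j + 1), (charpolyRev M).coeff i * (M ^ (j + 1 - i)).trace =
          ∑ i ∈ Finset.range (j + 1), (charpolyRev N).coeff i * (N ^ (j + 1 - i)).trace := by
        apply Finset.sum_congr rfl
        intro i hi
        rw [Finset.mem_range] at hi
        rw [ih i hi, show j + 1 - i = (j - i) + 1 by omega, h]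
      rw [h3, ← h2] at h1
      exact mul_left_cancel₀ (by exact_mod_cast j.succ_ne_zero) h1

/-- If the traces of all high powers vanish then the matrix is nilpotent. -/
lemma nil_of_trace {M : Matrix n n K} (k₀ : ℕ) (h : ∀ k, k₀ ≤ k → (M ^ k).trace = 0) :
    IsNilpotent M := by
  obtain ⟨q, e, h1, h2, h3, h4⟩ := fitting le_rfl M
  rw [pow_one] at h1
  have h5 : ∀ p : K[X], (aeval M (Polynomial.X ^ k₀ * p)).trace = 0 := by
    intro p
    induction p using Polynomial.induction_on' with
    | add p q hp hq => rw [mul_add, map_add, trace_add, hp, hq, add_zero]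
    | monomial k a =>
      rw [X_pow_mul_monomial, aeval_monomial, ← Algebra.smul_def, trace_smul, h _ (by omega),
        smul_zero]
  have h6 : ∀ m : ℕ, e ^ (m + 1) = e := by
    intro m
    induction m with
    | zero => rw [zero_add, pow_one]
    | succ m ih => rw [pow_succ, ih, h2]
  have h7 : e.trace = 0 := by
    have h8 := h6 k₀
    rw [← h8]
    nth_rw 1 [← h1]
    rw [← map_pow]
    have h9 : (Polynomial.X * q) ^ (k₀ + 1) = Polynomial.X ^ k₀ * (Polynomial.X * q ^ (k₀ + 1)) := by
      ring
    rw [h9]
    exact h5 _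
  have h8 := eq_zero_of_trace h2 h7
  rwa [h8, sub_zero, one_mul] at h4

/-- the coefficients of a multiple -/
lemma rev_smul (s : K) (M : Matrix n n K) (j : ℕ) :
    (charpolyRev (s • M)).coeff j = s ^ j * (charpolyRev M).coeff j := by
  have h1 : charpolyRev (s • M) = (charpolyRev M).comp (C s * X) := by
    rw [charpolyRev, charpolyRev, ← coe_compRingHom_apply, RingHom.map_det]
    congr 1
    ext1 a b
    rw [RingHom.mapMatrix_apply, Matrix.map_apply, Matrix.sub_apply, Matrix.sub_apply,
      Matrix.smul_apply, Matrix.smul_apply, Matrix.map_apply, Matrix.map_apply, Matrix.smul_apply,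
      coe_compRingHom_apply, smul_eq_mul, smul_eq_mul, smul_eq_mul, sub_comp, mul_comp, X_comp,
      C_comp, C_mul]
    have e5 : ((1 : Matrix n n K[X]) a b).comp (C s * X) = (1 : Matrix n n K[X]) a b := by
      by_cases hab : a = b
      · subst hab; simp
      · simp [hab]
    rw [e5]
    ring
  rw [h1, comp_C_mul_X_coeff, mul_comm]

/-- the coefficients of a nilpotent matrix -/
lemma nil_of_rev {M : Matrix n n K} (h : ∀ j, 1 ≤ j → (charpolyRev M).coeff j = 0) :
    IsNilpotent M := by
  apply nil_of_trace 1
  intro k hk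
  obtain ⟨k, rfl⟩ := Nat.exists_eq_add_of_le' hk
  apply newton
  ext j
  rcases j with _ | j
  · rw [coeff_zero_eq_eval_zero, eval_charpolyRev, coeff_one_zero]
  · rw [h _ (by omega), coeff_one, if_neg (by omega)]

end field

end Pool.Agent.L5helper49.LT
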