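import Pool.Agent.L5helper49.LT.Sol
import Pool.Agent.L5helper49.LT.Newt

set_option autoImplicit false

/-!
# The algebra generated by a Lie triple system with vanishing trace form
-/

namespace Pool.Agent.L5helper49.LT

open Matrix
open Pool.Agent.L5helper49.PW

variable {K : Type*} [Field K] [CharZero K] {n : Type*} [Fintype n] [DecidableEq n]
variable {𝓢 : Submodule K (Matrix n n K)}

/-- the algebra generated by the space -/
def 𝓐 (𝓢 : Submodule K (Matrix n n K)) : Subalgebra K (Matrix n n K) :=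
  Algebra.adjoin K (𝓢 : Set (Matrix n n K))

lemma mem_𝓐 {X : Matrix n n K} (h : X ∈ 𝓢) : X ∈ 𝓐 𝓢 := Algebra.subset_adjoin h

lemma tr_word (h : Lts 𝓢) (ht : Tr0 𝓢) {u a b : Matrix n n K} (hu : u ∈ 𝓐 𝓢) (ha : a ∈ 𝓢)
    (hb : b ∈ 𝓢) : (u * (a * b - b * a)).trace = 0 := by
  have h1 : u ∈ Submodule.span K (Submonoid.closure (𝓢 : Set (Matrix n n K)) : Set _) := by
    rw [← Algebra.adjoin_eq_span]
    exact hu
  clear hu
  induction h1 using Submodule.span_induction with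
  | mem u hu' =>
    obtain ⟨l, hl, rfl⟩ := Submonoid.exists_list_of_mem_closure hu'
    exact (isNilpotent_trace_of_isNilpotent (nil_word h ht l hl ha hb)).eq_zero
  | zero => simp
  | add u v _ _ h1 h2 => rw [add_mul, trace_add, h1, h2, add_zero]
  | smul c u _ h1 => rw [smul_mul_assoc, trace_smul, h1, smul_zero]

omit [CharZero K] in
/-- the induction step for both variables -/
lemma tr_ind {a : Matrix n n K} (h : ∀ b ∈ 𝓢, ∀ u ∈ 𝓐 𝓢, (u * (a * b - b * a)).trace = 0)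
    {w : Matrix n n K} (hw : w ∈ 𝓐 𝓢) : ∀ u ∈ 𝓐 𝓢, (u * (a * w - w * a)).trace = 0 := by
  induction hw using Algebra.adjoin_induction with
  | mem b hb => exact h b hb
  | algebraMap c =>
    intro u _
    rw [← Algebra.commutes, sub_self, mul_zero, trace_zero]
  | add x y hx hy h1 h2 =>
    intro u hu
    have e : u * (a * (x + y) - (x + y) * a) = u * (a * x - x * a) + u * (a * y - y * a) := by
      noncomm_ring
    rw [e, trace_add, h1 u hu, h2 u hu, add_zero]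
  | mul x y hx hy h1 h2 =>
    intro u hu
    have e : u * (a * (x * y) - x * y * a) = u * (a * x - x * a) * y +
        (u * x) * (a * y - y * a) := by
      noncomm_ring
    rw [e, trace_add, Matrix.trace_mul_comm, ← mul_assoc,
      h1 _ ((𝓐 𝓢).mul_mem hy hu), h2 _ ((𝓐 𝓢).mul_mem hu hx), add_zero]

/-- **The algebra is commutative for the trace.** -/
lemma tr_comm (h : Lts 𝓢) (ht : Tr0 𝓢) {u v w : Matrix n n K} (hu : u ∈ 𝓐 𝓢) (hv : v ∈ 𝓐 𝓢)
    (hw : w ∈ 𝓐 𝓢) : (u * (v * w)).trace = (u * (w * v)).trace := by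
  have h1 : ∀ a ∈ 𝓢, ∀ w ∈ 𝓐 𝓢, ∀ u ∈ 𝓐 𝓢, (u * (a * w - w * a)).trace = 0 :=
    fun a ha w hw => tr_ind (fun b hb u hu => tr_word h ht hu ha hb) hw
  have h2 : ∀ b ∈ 𝓢, ∀ u ∈ 𝓐 𝓢, (u * (v * b - b * v)).trace = 0 := by
    intro b hb u hu
    have h3 := h1 b hb v hv u hu
    rw [← neg_sub, mul_neg, trace_neg, neg_eq_zero] at h3
    exact h3
  have h4 := tr_ind h2 hw u hu
  rwa [mul_sub, trace_sub, sub_eq_zero] at h4

/-- equality up to elements invisible for the trace -/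
def Eqv (𝓢 : Submodule K (Matrix n n K)) (x y : Matrix n n K) : Prop :=
  ∀ u ∈ 𝓐 𝓢, (u * x).trace = (u * y).trace

omit [CharZero K] in
lemma Eqv.mul_left {x y z : Matrix n n K} (h : Eqv 𝓢 x y) (hz : z ∈ 𝓐 𝓢) :
    Eqv 𝓢 (z * x) (z * y) := by
  intro u hu
  rw [← mul_assoc, ← mul_assoc]
  exact h _ ((𝓐 𝓢).mul_mem hu hz)

omit [CharZero K] in
lemma Eqv.mul_right {x y z : Matrix n n K} (h : Eqv 𝓢 x y) (hz : z ∈ 𝓐 𝓢) :
    Eqv 𝓢 (x * z) (y * z) := by
  intro u hu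
  rw [← mul_assoc, ← mul_assoc, Matrix.trace_mul_comm, ← mul_assoc, Matrix.trace_mul_comm _ z,
    ← mul_assoc]
  exact h _ ((𝓐 𝓢).mul_mem hz hu)

omit [CharZero K] in
lemma Eqv.trans {x y z : Matrix n n K} (h : Eqv 𝓢 x y) (h' : Eqv 𝓢 y z) : Eqv 𝓢 x z :=
  fun u hu => (h u hu).trans (h' u hu)

lemma eqv_comm (h : Lts 𝓢) (ht : Tr0 𝓢) {x y : Matrix n n K} (hx : x ∈ 𝓐 𝓢) (hy : y ∈ 𝓐 𝓢) :
    Eqv 𝓢 (x * y) (y * x) := fun _ hu => tr_comm h ht hu hx hy

lemma eqv_pow (h : Lts 𝓢) (ht : Tr0 𝓢) {x y : Matrix n n K} (hx : x ∈ 𝓐 𝓢) (hy : y ∈ 𝓐 𝓢)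
    (k : ℕ) : Eqv 𝓢 ((x * y) ^ k) (x ^ k * y ^ k) := by
  induction k with
  | zero =>
    intro u _
    simp
  | succ k ih =>
    have h1 := ih.mul_right ((𝓐 𝓢).mul_mem hx hy)
    rw [← pow_succ] at h1
    refine h1.trans ?_
    have h2 : Eqv 𝓢 (y ^ k * x) (x * y ^ k) := eqv_comm h ht ((𝓐 𝓢).pow_mem hy k) hx
    have h3 := (h2.mul_left ((𝓐 𝓢).pow_mem hx k)).mul_right hy
    have e1 : x ^ k * y ^ k * (x * y) = x ^ k * (y ^ k * x) * y := by noncomm_ring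
    have e2 : x ^ (k + 1) * y ^ (k + 1) = x ^ k * (x * y ^ k) * y := by
      rw [pow_succ, pow_succ]
      noncomm_ring
    rw [e1, e2]
    exact h3

/-- Nilpotent elements are invisible for the trace. -/
lemma eqv_zero_of_nil (h : Lts 𝓢) (ht : Tr0 𝓢) {c : Matrix n n K} (hc : c ∈ 𝓐 𝓢)
    (hn : IsNilpotent c) : Eqv 𝓢 c 0 := by
  intro u hu
  obtain ⟨N, hN⟩ := hn
  have h1 : IsNilpotent (u * c) := by
    apply nil_of_trace N
    intro k hk
    have h2 := eqv_pow h ht hu hc k 1 (𝓐 𝓢).one_mem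
    rw [one_mul, one_mul] at h2
    rw [h2, pow_eq_zero_of_le hk hN, mul_zero, trace_zero]
  rw [(isNilpotent_trace_of_isNilpotent h1).eq_zero, mul_zero, trace_zero]

/-- Elements invisible for the trace are nilpotent. -/
lemma nil_of_eqv_zero {c : Matrix n n K} (hc : c ∈ 𝓐 𝓢) (h : Eqv 𝓢 c 0) : IsNilpotent c := by
  apply nil_of_trace 1
  intro k hk
  obtain ⟨k, rfl⟩ := Nat.exists_eq_add_of_le' hk
  rw [pow_succ, h _ ((𝓐 𝓢).pow_mem hc k), mul_zero, trace_zero]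

/-- **Combinations of nilpotent elements are nilpotent.** -/
lemma nil_sum (h : Lts 𝓢) (ht : Tr0 𝓢) {σ : Type*} [Fintype σ] (c : σ → K)
    (W : σ → Matrix n n K) (hW : ∀ l, W l ∈ 𝓢) (hn : ∀ l, IsNilpotent (W l)) :
    IsNilpotent (∑ l, c l • W l) := by
  apply nil_of_eqv_zero (𝓢 := 𝓢)
  · exact mem_𝓐 (Submodule.sum_mem _ fun l _ => Submodule.smul_mem _ _ (hW l))
  · intro u hu
    rw [Finset.mul_sum, trace_sum, mul_zero, trace_zero]
    apply Finset.sum_eq_zero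
    intro l _
    rw [mul_smul_comm, trace_smul, eqv_zero_of_nil h ht (mem_𝓐 (hW l)) (hn l) u hu, mul_zero,
      trace_zero, smul_zero]

/-- **Nilpotent summands do not change the characteristic polynomial.** -/
lemma rev_add_nil (h : Lts 𝓢) (ht : Tr0 𝓢) {N Z : Matrix n n K} (hN : N ∈ 𝓢)
    (hn : IsNilpotent N) (hZ : Z ∈ 𝓢) : charpolyRev (N + Z) = charpolyRev Z := by
  have hNZ : N + Z ∈ 𝓐 𝓢 := mem_𝓐 (𝓢.add_mem hN hZ)
  have h1 : ∀ k, Eqv 𝓢 ((N + Z) ^ k) (Z ^ k) := by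
    intro k
    induction k with
    | zero => intro u _; simp
    | succ k ih =>
      have h2 := ih.mul_right hNZ
      rw [← pow_succ] at h2
      refine h2.trans ?_
      intro u hu
      rw [mul_add, mul_add, trace_add, ← pow_succ, ← mul_assoc,
        eqv_zero_of_nil h ht (mem_𝓐 hN) hn _ ((𝓐 𝓢).mul_mem hu ((𝓐 𝓢).pow_mem (mem_𝓐 hZ) k)),
        mul_zero, trace_zero, zero_add]
  apply rev_congr
  intro k
  have h2 := h1 (k + 1) 1 (𝓐 𝓢).one_mem
  rwa [one_mul, one_mul] at h2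

end Pool.Agent.L5helper49.LT
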