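import Pool.Agent.L5helper49.LT.Opt
import Pool.Agent.L5helper49.PW.Main

set_option autoImplicit false

/-!
# The algorithm
-/

namespace Pool.Agent.L5helper49.LT

open Module Submodule Function
open Pool.Agent.Lib.CX Pool.Agent.Lib.helper22.CXDet
open Pool.Agent.Lib.Par (rk rk_eq pt_rk ls_opt)
open Pool.Agent.L5helper60.SR (Inp dim mat ent cden ient pt_dim pb_dim pt_ient ient_cast cden_ne
  mat_apply rank_smul' rank_add_ker det_eq_zero_iff)
open Pool.Agent.L5helper49.PW

/-- an entry of a product of two generators -/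
def m2 (L : Inp) (j l s t : ℕ) : ℤ :=
  ((List.range (dim L)).map fun u => ient L j s u * ient L l u t).sum

/-- an entry of a product of three generators -/
def m3 (L : Inp) (i j l s t : ℕ) : ℤ :=
  ((List.range (dim L)).map fun u => ient L i s u * m2 L j l u t).sum

/-- an entry of the triple commutator -/
def c3 (L : Inp) (i j l s t : ℕ) : ℤ :=
  m3 L i j l s t - m3 L i l j s t - m3 L j l i s t + m3 L l j i s t

/-- an entry of the commutator -/
def c2 (L : Inp) (i j s t : ℕ) : ℤ := m2 L i j s t - m2 L j i s t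

/-- the generators as vectors, the last one is a triple commutator -/
def g3 (L : Inp) (i j l r q : ℕ) : ℤ :=
  if r < L.length then ient L r (q / dim L) (q % dim L) else c3 L i j l (q / dim L) (q % dim L)

/-- the generators as vectors, the last one is a commutator -/
def g2 (L : Inp) (i j r q : ℕ) : ℤ :=
  if r < L.length then ient L r (q / dim L) (q % dim L) else c2 L i j (q / dim L) (q % dim L)

/-- the test for Lie triple systems -/
def tst3 (L : Inp) : Bool := (List.range L.length).all fun i => (List.range L.length).all fun j =>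
  (List.range L.length).all fun l =>
    decide (grk (L.length + 1) (dim L * dim L) (g3 L i j l) ≤
      grk L.length (dim L * dim L) (g3 L i j l))

/-- the test for Lie algebras -/
def tst2 (L : Inp) : Bool := (List.range L.length).all fun i => (List.range L.length).all fun j =>
    decide (grk (L.length + 1) (dim L * dim L) (g2 L i j) ≤
      grk L.length (dim L * dim L) (g2 L i j))

/-- the value found by the local search is singular -/
def sg (L : Inp) : Bool := decide (grk (dim L) (dim L) (e1 L (sol 2 L)) < dim L)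

section

variable {α : Type} [Enc α] {L : α → Inp} {i j k l m w : α → ℕ} {x : α → List ℕ}

attribute [local irreducible] ent cden dim ient e1 grk sol tst

@[fun_prop] lemma pt_m2 (hL : PT L) (hj : PT j) (hl : PT l) (hk : PT k) (hm : PT m) :
    PT fun a => m2 (L a) (j a) (l a) (k a) (m a) := by
  unfold m2; fun_prop

attribute [local irreducible] m2

@[fun_prop] lemma pt_m3 (hL : PT L) (hi : PT i) (hj : PT j) (hl : PT l) (hk : PT k) (hm : PT m) :
    PT fun a => m3 (L a) (i a) (j a) (l a) (k a) (m a) := by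
  unfold m3; fun_prop

attribute [local irreducible] m3

@[fun_prop] lemma pt_c3 (hL : PT L) (hi : PT i) (hj : PT j) (hl : PT l) (hk : PT k) (hm : PT m) :
    PT fun a => c3 (L a) (i a) (j a) (l a) (k a) (m a) := by
  unfold c3; fun_prop

@[fun_prop] lemma pt_c2 (hL : PT L) (hi : PT i) (hj : PT j) (hk : PT k) (hm : PT m) :
    PT fun a => c2 (L a) (i a) (j a) (k a) (m a) := by
  unfold c2; fun_prop

attribute [local irreducible] c2 c3

@[fun_prop] lemma pt_g3 (hL : PT L) (hi : PT i) (hj : PT j) (hl : PT l) (hk : PT k) (hm : PT m) :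
    PT fun a => g3 (L a) (i a) (j a) (l a) (k a) (m a) := by
  unfold g3; fun_prop

@[fun_prop] lemma pt_g2 (hL : PT L) (hi : PT i) (hj : PT j) (hk : PT k) (hm : PT m) :
    PT fun a => g2 (L a) (i a) (j a) (k a) (m a) := by
  unfold g2; fun_prop

attribute [local irreducible] g2 g3

lemma pt_tst3 : PT tst3 := by
  unfold tst3; fun_prop

lemma pt_tst2 : PT tst2 := by
  unfold tst2; fun_prop

lemma pt_sg : PT sg := by
  unfold sg
  have h2 := pt_sol 2
  fun_prop

end

/-! ### Correctness of the tests -/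

section gens

variable {K : Type*} [Field K] {n : Type*} [Fintype n] [DecidableEq n] {σ : Type*}

lemma ad_comm (X Y : Matrix n n K) : ad X Y = -ad Y X := by
  rw [ad_apply, ad_apply, neg_sub]

lemma lts_gens (A : σ → Matrix n n K) : Lts (span K (Set.range A)) ↔
    ∀ i j l, ad (A i) (ad (A j) (A l)) ∈ span K (Set.range A) := by
  obtain ⟨𝓛, h𝓛⟩ : ∃ 𝓛, 𝓛 = span K (Set.range A) := ⟨_, rfl⟩
  have hA : ∀ i, A i ∈ 𝓛 := fun i => by rw [h𝓛]; exact subset_span ⟨i, rfl⟩
  rw [← h𝓛]
  constructor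
  · intro h i j l
    exact h _ (hA i) _ (hA j) _ (hA l)
  · intro h
    have h1 : ∀ i j, ∀ Z ∈ 𝓛, ad (A i) (ad (A j) Z) ∈ 𝓛 := by
      intro i j
      have : 𝓛 ≤ 𝓛.comap (ad (A i) ∘ₗ ad (A j)) := by
        nth_rw 1 [h𝓛]
        rw [span_le]
        rintro _ ⟨l, rfl⟩
        exact h i j l
      exact this
    have h2 : ∀ i, ∀ Y ∈ 𝓛, ∀ Z ∈ 𝓛, ad (A i) (ad Y Z) ∈ 𝓛 := by
      intro i Y hY Z hZ
      have : 𝓛 ≤ 𝓛.comap (ad (A i) ∘ₗ ad Z) := by
        nth_rw 1 [h𝓛]
        rw [span_le]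
        rintro _ ⟨j, rfl⟩
        show ad (A i) (ad Z (A j)) ∈ 𝓛
        rw [ad_comm Z, map_neg]
        exact 𝓛.neg_mem (h1 i j Z hZ)
      have h3 : ad (A i) (ad Z Y) ∈ 𝓛 := this hY
      rw [ad_comm Z, map_neg] at h3
      exact neg_mem_iff.1 h3
    intro X hX Y hY Z hZ
    have : 𝓛 ≤ 𝓛.comap (ad (ad Y Z)) := by
      nth_rw 1 [h𝓛]
      rw [span_le]
      rintro _ ⟨i, rfl⟩
      show ad (ad Y Z) (A i) ∈ 𝓛
      rw [ad_comm]
      exact 𝓛.neg_mem (h2 i Y hY Z hZ)
    have h3 : ad (ad Y Z) X ∈ 𝓛 := this hX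
    rw [ad_comm] at h3
    exact neg_mem_iff.1 h3

/-- The space is closed under `[X, Y]`. -/
def Lie' (𝓢 : Submodule K (Matrix n n K)) : Prop := ∀ X ∈ 𝓢, ∀ Y ∈ 𝓢, X * Y - Y * X ∈ 𝓢

lemma Lie'.lts {𝓢 : Submodule K (Matrix n n K)} (h : Lie' 𝓢) : Lts 𝓢 :=
  fun X hX Y hY Z hZ => h X hX _ (h Y hY Z hZ)

lemma lie_gens (A : σ → Matrix n n K) : Lie' (span K (Set.range A)) ↔
    ∀ i j, ad (A i) (A j) ∈ span K (Set.range A) := by
  obtain ⟨𝓛, h𝓛⟩ : ∃ 𝓛, 𝓛 = span K (Set.range A) := ⟨_, rfl⟩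
  have hA : ∀ i, A i ∈ 𝓛 := fun i => by rw [h𝓛]; exact subset_span ⟨i, rfl⟩
  rw [← h𝓛]
  constructor
  · intro h i j
    exact h _ (hA i) _ (hA j)
  · intro h
    have h1 : ∀ i, ∀ Z ∈ 𝓛, ad (A i) Z ∈ 𝓛 := by
      intro i
      have : 𝓛 ≤ 𝓛.comap (ad (A i)) := by
        nth_rw 1 [h𝓛]
        rw [span_le]
        rintro _ ⟨l, rfl⟩
        exact h i l
      exact this
    intro X hX Y hY
    have : 𝓛 ≤ 𝓛.comap (ad Y) := by
      nth_rw 1 [h𝓛]
      rw [span_le]
      rintro _ ⟨i, rfl⟩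
      show ad Y (A i) ∈ 𝓛
      rw [ad_comm]
      exact 𝓛.neg_mem (h1 i Y hY)
    have h3 : ad Y X ∈ 𝓛 := this hX
    rw [ad_comm] at h3
    exact neg_mem_iff.1 h3

end gens

lemma m2_cast (L : Inp) (j l : ℕ) (s t : Fin (dim L)) :
    (m2 L j l s t : ℚ) = (((cden L : ℚ) ^ 2) • (mat L j * mat L l)) s t := by
  rw [m2, ← List.sum_toFinset _ List.nodup_range, List.toFinset_range, Finset.sum_range,
    Int.cast_sum, Matrix.smul_apply, Matrix.mul_apply, smul_eq_mul, Finset.mul_sum]
  apply Finset.sum_congr rfl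
  intro u _
  rw [Int.cast_mul, ient_cast, ient_cast, mat_apply, mat_apply]
  ring

lemma m3_cast (L : Inp) (i j l : ℕ) (s t : Fin (dim L)) :
    (m3 L i j l s t : ℚ) = (((cden L : ℚ) ^ 3) • (mat L i * (mat L j * mat L l))) s t := by
  rw [m3, ← List.sum_toFinset _ List.nodup_range, List.toFinset_range, Finset.sum_range,
    Int.cast_sum, Matrix.smul_apply, Matrix.mul_apply, smul_eq_mul, Finset.mul_sum]
  apply Finset.sum_congr rfl
  intro u _
  rw [Int.cast_mul, ient_cast, m2_cast, mat_apply, Matrix.smul_apply, smul_eq_mul]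
  ring

lemma c3_cast (L : Inp) (i j l : ℕ) (s t : Fin (dim L)) :
    (c3 L i j l s t : ℚ) = (((cden L : ℚ) ^ 3) • ad (mat L i) (ad (mat L j) (mat L l))) s t := by
  rw [c3, Int.cast_add, Int.cast_sub, Int.cast_sub, m3_cast, m3_cast, m3_cast, m3_cast,
    ad_apply, ad_apply, ← Matrix.sub_apply, ← Matrix.sub_apply, ← Matrix.add_apply, ← smul_sub,
    ← smul_sub, ← smul_add]
  congr 3
  noncomm_ring

lemma c2_cast (L : Inp) (i j : ℕ) (s t : Fin (dim L)) :
    (c2 L i j s t : ℚ) = (((cden L : ℚ) ^ 2) • ad (mat L i) (mat L j)) s t := by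
  rw [c2, Int.cast_sub, m2_cast, m2_cast, ad_apply, ← Matrix.sub_apply, ← smul_sub]

/-- the test for one element -/
lemma grk_mem (L : Inp) (g : ℕ → ℕ → ℤ) (f : ℕ → ℕ → ℤ) (M : Matrix (Fin (dim L)) (Fin (dim L)) ℚ)
    (c : ℚ) (hc : c ≠ 0) (hg : ∀ r q, g r q = if r < L.length then
      ient L r (q / dim L) (q % dim L) else f (q / dim L) (q % dim L))
    (hf : ∀ s t : Fin (dim L), (f s t : ℚ) = (c • M) s t) :
    grk (L.length + 1) (dim L * dim L) g ≤ grk L.length (dim L * dim L) g ↔ M ∈ spn L := by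
  rw [grk_succ]
  have h1 : ∀ r < L.length, rw' (dim L * dim L) g r = (cden L : ℚ) • vec (dim L) (mat L r) := by
    intro r hr
    funext q
    rw [rw', hg, if_pos hr, ient_cast]
    rfl
  have h2 : rw' (dim L * dim L) g L.length = c • vec (dim L) M := by
    funext q
    rw [rw', hg, if_neg (lt_irrefl _)]
    have e2 := hf q.divNat q.modNat
    rw [Fin.coe_divNat, Fin.coe_modNat] at e2
    rw [e2]
    rfl
  have h3 : span ℚ (rw' (dim L * dim L) g '' Set.Iio L.length) = (spn L).map (vec (dim L)) := by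
    rw [spn, map_span]
    apply le_antisymm
    · rw [span_le]
      rintro _ ⟨r, hr, rfl⟩
      rw [h1 r hr]
      exact Submodule.smul_mem _ _ (subset_span ⟨_, ⟨⟨r, hr⟩, rfl⟩, rfl⟩)
    · rw [span_le]
      rintro _ ⟨_, ⟨r, rfl⟩, rfl⟩
      have h4 : vec (dim L) (mat L r) = (cden L : ℚ)⁻¹ • rw' (dim L * dim L) g r := by
        rw [h1 r r.2, smul_smul, inv_mul_cancel₀ (cden_ne L), one_smul]
      show vec (dim L) (mat L r) ∈ _
      rw [h4]
      exact Submodule.smul_mem _ _ (subset_span ⟨r, r.2, rfl⟩)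
  rw [h2, h3, Submodule.smul_mem_iff _ hc]
  constructor
  · rintro ⟨M', hM, hMv⟩
    rwa [← vec_inj _ hMv]
  · intro h
    exact ⟨_, h, rfl⟩

lemma tst3_iff (L : Inp) : tst3 L = true ↔ Lts (spn L) := by
  rw [spn, lts_gens]
  simp only [tst3, List.all_eq_true, List.mem_range, decide_eq_true_eq]
  have h1 : ∀ i j l, grk (L.length + 1) (dim L * dim L) (g3 L i j l) ≤
      grk L.length (dim L * dim L) (g3 L i j l) ↔
      ad (mat L i) (ad (mat L j) (mat L l)) ∈ spn L := by
    intro i j l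
    exact grk_mem L _ (c3 L i j l) _ _ (pow_ne_zero 3 (cden_ne L)) (fun _ _ => rfl)
      (c3_cast L i j l)
  constructor
  · intro h i j l
    exact (h1 i j l).1 (h i i.2 j j.2 l l.2)
  · intro h i hi j hj l hl
    exact (h1 i j l).2 (h ⟨i, hi⟩ ⟨j, hj⟩ ⟨l, hl⟩)

lemma tst2_iff (L : Inp) : tst2 L = true ↔ Lie' (spn L) := by
  rw [spn, lie_gens]
  simp only [tst2, List.all_eq_true, List.mem_range, decide_eq_true_eq]
  have h1 : ∀ i j, grk (L.length + 1) (dim L * dim L) (g2 L i j) ≤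
      grk L.length (dim L * dim L) (g2 L i j) ↔ ad (mat L i) (mat L j) ∈ spn L := by
    intro i j
    exact grk_mem L _ (c2 L i j) _ _ (pow_ne_zero 2 (cden_ne L)) (fun _ _ => rfl)
      (c2_cast L i j)
  constructor
  · intro h i j
    exact (h1 i j).1 (h i i.2 j j.2)
  · intro h i hi j hj
    exact (h1 i j).2 (h ⟨i, hi⟩ ⟨j, hj⟩)

/-! ### Correctness of the local search -/

/-- the result of the local search is optimal -/
lemma sol_opt (L : Inp) (w : Fin L.length → ℚ)
    (h1 : ∀ l, w l = vl (sol 2 L) l ∨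
      w l ∈ (Finset.range (nb 2 L + 1)).image fun v : ℕ => (v : ℚ))
    (h2 : ∃ s : Finset (Fin L.length), s.card ≤ 2 ∧ ∀ l ∉ s, w l = vl (sol 2 L) l) :
    (cmb (fun i : Fin L.length => mat L i) w ^ dim L).rank ≤
      (lval L (vl (sol 2 L)) ^ dim L).rank := by
  have o := ls_opt (nbr 2 L 2) (ps L) (List.replicate L.length 0) (K := nb 2 L) fun x => by
    have h1 := ps_eq L x
    have h2 := Matrix.rank_le_width (lval L (vl x) ^ dim L)
    unfold nb
    omega
  have hl := (sol_inv 2 L (nb 2 L) _ rfl).1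
  change ∀ y ∈ nbr 2 L 2 (sol 2 L), _ ≤ ps L (sol 2 L) at o
  change (sol 2 L).length = _ at hl
  obtain ⟨z, hz, hzw⟩ := exists_nbr 2 L 2 (sol 2 L) hl w h1 h2
  have h4 := o z hz
  have p1 := ps_eq L (sol 2 L)
  have p2 := ps_eq L z
  rw [lval_cmb L (vl z)] at p2
  rw [show (fun i : Fin L.length => vl z i) = w from funext hzw] at p2
  omega

lemma card_vals (L : Inp) : Fintype.card (Fin (dim L)) <
    ((Finset.range (nb 2 L + 1)).image fun v : ℕ => (v : ℚ)).card := by
  rw [Finset.card_image_of_injective _ Nat.cast_injective, Finset.card_range, Fintype.card_fin]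
  unfold nb
  nlinarith

/-- **The local search finds the maximum.** -/
theorem lts_max {L : Inp} (h : Lts (spn L)) (y : ℕ → ℚ) :
    (lval L y ^ dim L).rank ≤ (lval L (vl (sol 2 L)) ^ dim L).rank := by
  rw [lval_cmb L y, lval_cmb L (vl (sol 2 L))]
  have h1 := main (fun i : Fin L.length => mat L i) h (fun i : Fin L.length => vl (sol 2 L) i)
    ((Finset.range (nb 2 L + 1)).image fun v : ℕ => (v : ℚ)) (card_vals L) ?_ fun i => y i
  · rwa [Fintype.card_fin] at h1
  · intro w h1 h2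
    rw [Fintype.card_fin, ← lval_cmb L (vl (sol 2 L))]
    exact sol_opt L w h1 h2

lemma det_iff_rank {n : ℕ} (M : Matrix (Fin n) (Fin n) ℚ) : M.det = 0 ↔ (M ^ n).rank < n := by
  rcases n with _ | n
  · simp
  · rw [← det_eq_zero_iff, Matrix.det_pow, pow_eq_zero_iff (by omega)]

theorem lts_singular {L : Inp} (h : Lts (spn L)) :
    (lpol L).det = 0 ↔ (lval L (vl (sol 2 L))).det = 0 := by
  constructor
  · intro h1
    rw [← eval_ldet, h1, map_zero]
  · intro h1
    apply MvPolynomial.funext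
    intro y
    rw [eval_ldet, map_zero, det_iff_rank]
    exact (lts_max h y).trans_lt ((det_iff_rank _).1 h1)

theorem jordan_singular {L : Inp} (h : Closed 2 L) :
    (lpol L).det = 0 ↔ (lval L (vl (sol 2 L))).det = 0 := by
  constructor
  · intro h1
    rw [← eval_ldet, h1, map_zero]
  · intro h1
    apply MvPolynomial.funext
    intro y
    rw [eval_ldet, map_zero, lval_cmb L y]
    rw [lval_cmb] at h1
    refine PW.main 1 le_rfl (fun i : Fin L.length => mat L i) h
      (fun i : Fin L.length => vl (sol 2 L) i)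
      ((Finset.range (nb 2 L + 1)).image fun v : ℕ => (v : ℚ)) (card_vals L) ?_ h1 _
    rintro w h2 ⟨s, hs, h3⟩
    rw [Fintype.card_fin, ← lval_cmb L (vl (sol 2 L))]
    exact sol_opt L w h2 ⟨s, hs.trans (by omega), h3⟩

lemma sg_iff (L : Inp) : sg L = true ↔ (lval L (vl (sol 2 L))).det = 0 := by
  rw [sg, decide_eq_true_eq, det_eq_zero_iff, grk_eq]
  have e : (Matrix.of fun i j : Fin (dim L) => (e1 L (sol 2 L) i j : ℚ)) =
      (cden L : ℚ) • lval L (vl (sol 2 L)) := by
    ext i j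
    rw [Matrix.of_apply, e1_cast]
  rw [e, rank_smul' (cden_ne L)]

/-- **The decision problem is in P.** -/
theorem inP : InP fun L : Inp => Lts (spn L) ∧ (lpol L).det = 0 := by
  refine ⟨fun L => tst3 L && sg L, ?_, fun L => ?_⟩
  · have h1 := pt_tst3
    have h2 := pt_sg
    fun_prop
  · rw [Bool.and_eq_true, tst3_iff, sg_iff]
    exact and_congr_right fun h => lts_singular h

end Pool.Agent.L5helper49.LT
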