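import Pool.Agent.L5helper49.LT.Dec
import Pool.Agent.L5helper49.PW.Extra

set_option autoImplicit false

/-!
# Lie triple systems: definitions, examples, and spaces closed under a bilinear product
-/

namespace Pool.Agent.L5helper49.LT

open Module Submodule Matrix
open Pool.Agent.L5helper60.SR (Inp dim mat)
open Pool.Agent.L5helper49.PW
open Pool.Agent.Lib.CX (PT InP)

section general

variable {K : Type*} [Field K] {n : ℕ}

/-- The space is closed under `[X, [Y, Z]]`. -/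
def LieTriple (𝓛 : Submodule K (Matrix (Fin n) (Fin n) K)) : Prop :=
  ∀ X ∈ 𝓛, ∀ Y ∈ 𝓛, ∀ Z ∈ 𝓛, X * (Y * Z - Z * Y) - (Y * Z - Z * Y) * X ∈ 𝓛

/-- The space is closed under the product `a X Y + b Y X`. -/
def ProdClosed (a b : K) (𝓛 : Submodule K (Matrix (Fin n) (Fin n) K)) : Prop :=
  ∀ X ∈ 𝓛, ∀ Y ∈ 𝓛, a • (X * Y) + b • (Y * X) ∈ 𝓛

lemma prod_iff (𝓛 : Submodule K (Matrix (Fin n) (Fin n) K)) :
    (∃ a b : K, (a ≠ 0 ∨ b ≠ 0) ∧ ProdClosed a b 𝓛) ↔ (Lie' 𝓛 ∨ ∀ X ∈ 𝓛, X ^ 2 ∈ 𝓛) := by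
  constructor
  · rintro ⟨a, b, hab, h⟩
    by_cases h0 : a + b = 0
    · left
      have hb : b = -a := eq_neg_of_add_eq_zero_right h0
      have ha : a ≠ 0 := by
        rintro rfl
        simp only [neg_zero] at hb
        rw [hb] at hab
        simp at hab
      intro X hX Y hY
      have h1 := h X hX Y hY
      rw [hb, neg_smul, ← sub_eq_add_neg, ← smul_sub] at h1
      exact (𝓛.smul_mem_iff ha).1 h1
    · right
      intro X hX
      have h1 := h X hX X hX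
      rw [← add_smul] at h1
      rw [sq]
      exact (𝓛.smul_mem_iff h0).1 h1
  · rintro (h | h)
    · refine ⟨1, -1, Or.inl one_ne_zero, fun X hX Y hY => ?_⟩
      rw [one_smul, neg_smul, one_smul, ← sub_eq_add_neg]
      exact h X hX Y hY
    · refine ⟨1, 1, Or.inl one_ne_zero, fun X hX Y hY => ?_⟩
      have e : (1 : K) • (X * Y) + (1 : K) • (Y * X) = (X + Y) ^ 2 - X ^ 2 - Y ^ 2 := by
        rw [one_smul, one_smul, sq, sq, sq]
        noncomm_ring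
      rw [e]
      exact 𝓛.sub_mem (𝓛.sub_mem (h _ (𝓛.add_mem hX hY)) (h X hX)) (h Y hY)

lemma triple_of_prod {a : K} (ha : a ≠ 0) {𝓛 : Submodule K (Matrix (Fin n) (Fin n) K)}
    (h : ProdClosed a (-a) 𝓛) : LieTriple 𝓛 := by
  have h1 : Lie' 𝓛 := by
    intro X hX Y hY
    have h2 := h X hX Y hY
    rw [neg_smul, ← sub_eq_add_neg, ← smul_sub] at h2
    exact (𝓛.smul_mem_iff ha).1 h2
  exact h1.lts

lemma triple_of_xyx {𝓛 : Submodule K (Matrix (Fin n) (Fin n) K)}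
    (h : ∀ X ∈ 𝓛, ∀ Y ∈ 𝓛, X * Y * X ∈ 𝓛) : LieTriple 𝓛 := by
  have h1 : ∀ X ∈ 𝓛, ∀ Y ∈ 𝓛, ∀ Z ∈ 𝓛, X * Y * Z + Z * Y * X ∈ 𝓛 := by
    intro X hX Y hY Z hZ
    have e : X * Y * Z + Z * Y * X = (X + Z) * Y * (X + Z) - X * Y * X - Z * Y * Z := by
      noncomm_ring
    rw [e]
    exact 𝓛.sub_mem (𝓛.sub_mem (h _ (𝓛.add_mem hX hZ) Y hY) (h X hX Y hY)) (h Z hZ Y hY)
  intro X hX Y hY Z hZ
  have e : X * (Y * Z - Z * Y) - (Y * Z - Z * Y) * X =
      (X * Y * Z + Z * Y * X) - (X * Z * Y + Y * Z * X) := by noncomm_ring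
  rw [e]
  exact 𝓛.sub_mem (h1 X hX Y hY Z hZ) (h1 X hX Z hZ Y hY)

lemma adj_triple {ι κ : Type} (B : ι → Matrix (Fin n) (Fin n) K) (ε : ι → K)
    (C : κ → Matrix (Fin n) (Fin n) K) (ω : κ → K) (hε : ∀ i, ε i ^ 3 = ε i)
    (hω : ∀ j, ω j ^ 3 = ω j) : LieTriple (adj B ε C ω) := by
  have h1 : ∀ X ∈ adj B ε C ω, ∀ Y ∈ adj B ε C ω, ∀ Z ∈ adj B ε C ω, ∀ i,
      B i * (X * Y * Z) = ε i • ((Z * Y * X)ᵀ * B i) := by
    intro X hX Y hY Z hZ i
    rw [← mul_assoc, ← mul_assoc, hX.1, smul_mul_assoc, smul_mul_assoc, mul_assoc Xᵀ, hY.1,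
      mul_smul_comm, smul_mul_assoc, mul_assoc, mul_assoc, hZ.1, mul_smul_comm, mul_smul_comm,
      smul_smul, smul_smul, ← sq, ← pow_succ, hε, transpose_mul, transpose_mul]
    simp only [mul_assoc]
  have h2 : ∀ X ∈ adj B ε C ω, ∀ Y ∈ adj B ε C ω, ∀ Z ∈ adj B ε C ω, ∀ j,
      (X * Y * Z) * C j = ω j • (C j * (X * Y * Z)) := by
    intro X hX Y hY Z hZ j
    rw [mul_assoc, hZ.2, mul_smul_comm, mul_assoc, ← mul_assoc Y, hY.2, smul_mul_assoc,
      mul_smul_comm, smul_smul, mul_assoc, ← mul_assoc X, hX.2, smul_mul_assoc, smul_smul, ← sq,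
      ← pow_succ, hω]
    simp only [mul_assoc]
  intro X hX Y hY Z hZ
  have e : X * (Y * Z - Z * Y) - (Y * Z - Z * Y) * X =
      X * Y * Z - X * Z * Y - Y * Z * X + Z * Y * X := by noncomm_ring
  rw [e]
  refine ⟨fun i => ?_, fun j => ?_⟩
  · rw [mul_add, mul_sub, mul_sub, h1 X hX Y hY Z hZ, h1 X hX Z hZ Y hY, h1 Y hY Z hZ X hX,
      h1 Z hZ Y hY X hX, ← smul_sub, ← smul_sub, ← smul_add, ← sub_mul, ← sub_mul, ← add_mul,
      ← transpose_sub, ← transpose_sub, ← transpose_add]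
    congr 3
    abel
  · rw [add_mul, sub_mul, sub_mul, h2 X hX Y hY Z hZ, h2 X hX Z hZ Y hY, h2 Y hY Z hZ X hX,
      h2 Z hZ Y hY X hX, ← smul_sub, ← smul_sub, ← smul_add, ← mul_sub, ← mul_sub, ← mul_add]

lemma loc_opt_triple [CharZero K] {k : ℕ} {A : Fin k → Matrix (Fin n) (Fin n) K}
    (hA : LieTriple (Submodule.span K (Set.range A))) {S : Finset K} (hS : n < S.card)
    {x : Fin k → K} (h0 : LocOpt 2 A S x) (y : Fin k → K) :
    (cmb A y ^ n).rank ≤ (cmb A x ^ n).rank := by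
  have h1 := main A hA x S (by rwa [Fintype.card_fin]) ?_ y
  · rwa [Fintype.card_fin] at h1
  · rintro z h1 ⟨s, hs, h2⟩
    rw [Fintype.card_fin]
    refine h0 z h1 ?_
    refine le_trans ?_ hs
    rw [← Set.ncard_coe_finset]
    apply Set.ncard_le_ncard _ (Finset.finite_toSet s)
    intro l hl
    by_contra h3
    exact hl (h2 l h3)

end general

/-- **Spaces closed under a bilinear product.** -/
theorem inP_prod : InP fun L : Inp => (∃ a b : ℚ, (a ≠ 0 ∨ b ≠ 0) ∧ ProdClosed a b (spn L)) ∧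
    (lpol L).det = 0 := by
  refine ⟨fun L => (tst2 L || tst 1 L) && sg L, ?_, fun L => ?_⟩
  · have h1 := pt_tst2
    have h2 := pt_sg
    have h3 := pt_tst 1
    fun_prop
  · show (∃ a b : ℚ, (a ≠ 0 ∨ b ≠ 0) ∧ ProdClosed a b (spn L)) ∧ _ ↔ _
    rw [Bool.and_eq_true, Bool.or_eq_true, tst2_iff, tst_iff, sg_iff, prod_iff]
    refine and_congr_right fun h => ?_
    rcases h with h | h
    · exact lts_singular h.lts
    · exact jordan_singular h

/-- three nilpotent matrices which span `sl_2` -/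
def nil3 (i : Fin 3) : Matrix (Fin 2) (Fin 2) ℚ :=
  ![!![0, 1; 0, 0], !![0, 0; 1, 0], !![1, 1; -1, -1]] i

lemma nil3_cmb (x : Fin 3 → ℚ) : cmb nil3 x = !![x 2, x 0 + x 2; x 1 - x 2, -x 2] := by
  ext i j
  fin_cases i <;> fin_cases j <;> simp [cmb, nil3, Fin.sum_univ_succ]
  ring

lemma nil3_mem (M : Matrix (Fin 2) (Fin 2) ℚ) :
    M ∈ Submodule.span ℚ (Set.range nil3) ↔ M.trace = 0 := by
  rw [Submodule.mem_span_range_iff_exists_fun]
  constructor
  · rintro ⟨x, rfl⟩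
    have h1 : ∑ i, x i • nil3 i = cmb nil3 x := rfl
    rw [h1, nil3_cmb, Matrix.trace_fin_two]
    simp
  · intro h
    rw [Matrix.trace_fin_two] at h
    refine ⟨![M 0 1 - M 0 0, M 1 0 + M 0 0, M 0 0], ?_⟩
    have h1 : ∀ x : Fin 3 → ℚ, ∑ i, x i • nil3 i = cmb nil3 x := fun _ => rfl
    rw [h1, nil3_cmb]
    ext i j
    fin_cases i <;> fin_cases j <;> simp
    linarith

lemma nil3_triple : LieTriple (Submodule.span ℚ (Set.range nil3)) := by
  intro X _ Y _ Z _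
  rw [nil3_mem, Matrix.trace_sub, Matrix.trace_mul_comm, sub_self]

lemma nil3_loc (S : Finset ℚ) : LocOpt 1 nil3 S 0 := by
  intro y _ h
  have h1 : cmb nil3 y ^ 2 = 0 := by
    have h2 : ∀ i j, y i ≠ 0 → y j ≠ 0 → i = j := by
      intro i j hi hj
      rw [Set.ncard_le_one_iff] at h
      exact h hi hj
    rw [nil3_cmb, sq]
    have a1 : y 0 * y 1 = 0 := by
      by_contra h3
      exact absurd (h2 0 1 (left_ne_zero_of_mul h3) (right_ne_zero_of_mul h3)) (by decide)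
    have a2 : y 0 * y 2 = 0 := by
      by_contra h3
      exact absurd (h2 0 2 (left_ne_zero_of_mul h3) (right_ne_zero_of_mul h3)) (by decide)
    have a3 : y 1 * y 2 = 0 := by
      by_contra h3
      exact absurd (h2 1 2 (left_ne_zero_of_mul h3) (right_ne_zero_of_mul h3)) (by decide)
    ext i j
    fin_cases i <;> fin_cases j <;> simp [Matrix.mul_apply, Fin.sum_univ_succ] <;> linarith
  rw [h1, rank_zero]
  exact Nat.zero_le _

/-- A Lie triple system of singular matrices which generates a Lie algebra with invertible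
elements. -/
lemma exists_singular : ∃ 𝓛 : Submodule ℚ (Matrix (Fin 3) (Fin 3) ℚ), LieTriple 𝓛 ∧
    (∀ X ∈ 𝓛, X.det = 0) ∧ ∃ X ∈ 𝓛, ∃ Y ∈ 𝓛, ∃ Z ∈ 𝓛, ∃ W ∈ 𝓛,
      ((X * Y - Y * X) + (Z * W - W * Z)).det ≠ 0 := by
  have hm : ∀ X : Matrix (Fin 3) (Fin 3) ℚ,
      X ∈ adj (fun _ : Empty => (0 : Matrix (Fin 3) (Fin 3) ℚ)) (fun _ => 0)
        (fun _ : Unit => diagonal ![1, -1, -1]) (fun _ => -1) ↔
      X 0 0 = 0 ∧ X 1 1 = 0 ∧ X 1 2 = 0 ∧ X 2 1 = 0 ∧ X 2 2 = 0 := by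
    intro X
    have h1 : ∀ i j, (X * diagonal ![(1 : ℚ), -1, -1]) i j =
        ((-1 : ℚ) • (diagonal ![(1 : ℚ), -1, -1] * X)) i j ↔
        X i j * ![(1 : ℚ), -1, -1] j = -(![(1 : ℚ), -1, -1] i * X i j) := by
      intro i j
      rw [mul_diagonal, Matrix.smul_apply, diagonal_mul, smul_eq_mul, neg_one_mul]
    constructor
    · rintro ⟨-, h⟩
      have h2 := fun i j => (h1 i j).1 (congrFun (congrFun (h ()) i) j)
      have a := h2 0 0
      have b := h2 1 1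
      have c := h2 1 2
      have d := h2 2 1
      have e := h2 2 2
      simp at a b c d e
      refine ⟨?_, ?_, ?_, ?_, ?_⟩ <;> linarith
    · rintro ⟨a, b, c, d, e⟩
      refine ⟨fun i => i.elim, fun _ => ?_⟩
      ext i j
      rw [h1]
      fin_cases i <;> fin_cases j <;> simp [a, b, c, d, e]
  refine ⟨_, adj_triple (fun _ : Empty => (0 : Matrix (Fin 3) (Fin 3) ℚ)) (fun _ => 0)
    (fun _ : Unit => diagonal ![1, -1, -1]) (fun _ => -1) (fun i => i.elim) (fun _ => by norm_num),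
    ?_, Matrix.of ![![0, 1, 0], ![0, 0, 0], ![0, 0, 0]], ?_,
    Matrix.of ![![0, 0, 0], ![1, 0, 0], ![0, 0, 0]], ?_,
    Matrix.of ![![0, 0, 1], ![0, 0, 0], ![0, 0, 0]], ?_,
    Matrix.of ![![0, 0, 0], ![0, 0, 0], ![1, 0, 0]], ?_, ?_⟩
  · intro X hX
    obtain ⟨a, b, c, d, e⟩ := (hm X).1 hX
    rw [det_fin_three, a, b, c, d, e]
    ring
  · rw [hm]; simp
  · rw [hm]; simp
  · rw [hm]; simp
  · rw [hm]; simp
  · rw [det_fin_three]
    simp

lemma nil3_det : (cmb nil3 0).det = 0 ∧ (cmb nil3 ![1, 1, 0]).det ≠ 0 := by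
  rw [nil3_cmb, nil3_cmb, Matrix.det_fin_two, Matrix.det_fin_two]
  constructor <;> simp

end Pool.Agent.L5helper49.LT
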