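import Pool.Agent.L5helper49.LT.Split
import Mathlib.Algebra.DualNumber

set_option autoImplicit false

/-!
# The invariance of the leading forms
-/

namespace Pool.Agent.L5helper49.LT

open Matrix Polynomial
open Pool.Agent.L5helper49.PW

section form

variable {K : Type*} [Field K] {σ : Type*}

/-- the leading form along curves -/
lemma lead_form {S : Type*} [CommRing S] [Algebra K S] (f : MvPolynomial σ K) (i : ℕ)
    (hf : ∀ m : σ →₀ ℕ, m.degree < i → f.coeff m = 0) (y : σ → S[X]) :
    (MvPolynomial.aeval (fun l => X * y l) f).coeff i =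
      MvPolynomial.aeval (fun l => (y l).coeff 0) (MvPolynomial.homogeneousComponent i f) := by
  rw [MvPolynomial.homogeneousComponent_apply, map_sum, Finset.sum_filter]
  conv_lhs => rw [f.as_sum, map_sum, finsetSum_coeff]
  apply Finset.sum_congr rfl
  intro m hm
  have hmi : i ≤ m.degree := by
    by_contra h
    exact (MvPolynomial.mem_support_iff.1 hm) (hf m (by omega))
  rw [MvPolynomial.aeval_monomial]
  have h2 : (m.prod fun l k => (X * y l) ^ k) =
      X ^ m.degree * (m.prod fun l k => (y l) ^ k) := by
    rw [Finsupp.prod, Finsupp.prod, Finsupp.degree_apply, ← Finset.prod_pow_eq_pow_sum,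
      ← Finset.prod_mul_distrib]
    apply Finset.prod_congr rfl
    intro l _
    rw [mul_pow]
  rw [h2, ← mul_assoc, mul_comm (algebraMap K S[X] _), mul_assoc, coeff_X_pow_mul']
  by_cases h3 : m.degree = i
  · rw [if_pos h3, if_pos h3.le, h3, Nat.sub_self, MvPolynomial.aeval_monomial, mul_coeff_zero]
    congr 1
    · rw [Polynomial.algebraMap_apply, coeff_C_zero]
    · have h4 : ∀ p : S[X], p.coeff 0 = constantCoeff p := fun _ => rfl
      rw [h4, Finsupp.prod, Finsupp.prod, map_prod]
      apply Finset.prod_congr rfl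
      intro l _
      rw [map_pow]
      rfl
  · rw [if_neg h3, if_neg (by omega)]

lemma dual_fst (p : K[X]) (t : K) : (aeval (algebraMap K (DualNumber K) t + DualNumber.eps) p).fst =
    p.eval t := by
  induction p using Polynomial.induction_on' with
  | add p q hp hq => rw [map_add, TrivSqZeroExt.fst_add, hp, hq, eval_add]
  | monomial k a =>
    rw [aeval_monomial, TrivSqZeroExt.fst_mul, TrivSqZeroExt.fst_pow, TrivSqZeroExt.fst_add,
      DualNumber.fst_eps, add_zero, eval_monomial, TrivSqZeroExt.algebraMap_eq_inl]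
    simp

lemma dual_snd (p : K[X]) (t : K) : (aeval (algebraMap K (DualNumber K) t + DualNumber.eps) p).snd =
    p.derivative.eval t := by
  induction p using Polynomial.induction_on' with
  | add p q hp hq => rw [map_add, TrivSqZeroExt.snd_add, hp, hq, derivative_add, eval_add]
  | monomial k a =>
    rw [aeval_monomial, DualNumber.snd_mul, TrivSqZeroExt.snd_pow, TrivSqZeroExt.fst_add,
      TrivSqZeroExt.snd_add, DualNumber.snd_eps, DualNumber.fst_eps, add_zero, derivative_monomial,
      eval_monomial, TrivSqZeroExt.algebraMap_eq_inl]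
    simp [Nat.pred_eq_sub_one]
    ring

/-- A polynomial which is infinitesimally constant is constant. -/
lemma line_const [CharZero K] (F : MvPolynomial σ K) (c : σ → K)
    (h : ∀ z : σ → K, MvPolynomial.aeval (fun l => algebraMap K (DualNumber K) (z l) +
      algebraMap K (DualNumber K) (c l) * DualNumber.eps) F =
      MvPolynomial.aeval (fun l => algebraMap K (DualNumber K) (z l)) F) (z : σ → K) :
    MvPolynomial.eval (fun l => z l + c l) F = MvPolynomial.eval z F := by
  obtain ⟨p, hp⟩ : ∃ p : K[X], p = MvPolynomial.aeval (fun l => C (z l) + C (c l) * X) F := ⟨_, rfl⟩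
  have h1 : ∀ t : K, p.derivative.eval t = 0 := by
    intro t
    rw [← dual_snd, hp]
    have e1 : (aeval (algebraMap K (DualNumber K) t + DualNumber.eps))
        (MvPolynomial.aeval (fun l => C (z l) + C (c l) * X) F) =
        MvPolynomial.aeval (fun l => algebraMap K (DualNumber K) (z l + t * c l) +
          algebraMap K (DualNumber K) (c l) * DualNumber.eps) F := by
      rw [← AlgHom.comp_apply, MvPolynomial.comp_aeval]
      congr 2
      funext l
      simp only [map_add, map_mul, aeval_C, aeval_X]
      ring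
    rw [e1, h]
    have e2 : MvPolynomial.aeval (fun l => algebraMap K (DualNumber K) (z l + t * c l)) F =
        algebraMap K (DualNumber K) (MvPolynomial.eval (fun l => z l + t * c l) F) := by
      have e3 := MvPolynomial.aeval_algebraMap_apply (DualNumber K) (fun l => z l + t * c l) F
      exact e3
    rw [e2, TrivSqZeroExt.algebraMap_eq_inl, TrivSqZeroExt.snd_inl]
  have h2 : p.derivative = 0 := Polynomial.funext fun t => by rw [h1, eval_zero]
  have h3 := eq_C_of_natDegree_eq_zero (derivative_eq_zero.1 h2)
  have h4 : ∀ t : K, p.eval t = MvPolynomial.eval (fun l => z l + c l * t) F := by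
    intro t
    rw [hp, ← coe_aeval_eq_eval, ← AlgHom.comp_apply, MvPolynomial.comp_aeval]
    rw [← MvPolynomial.coe_aeval_eq_eval]
    simp [aeval_def]
  have h5 := h4 1
  have h6 := h4 0
  rw [h3, eval_C] at h5 h6
  simp only [mul_one, mul_zero, add_zero] at h5 h6
  rw [← h5, h6]

end form

section conj

lemma conj_alg {A : Type*} [Ring A] (u X Y : A) (h0 : u * u = 0) (h1 : ∀ Z : A, u * Z * u = 0) :
    (1 + u) * (X + Y - (u * Y - Y * u)) * (1 - u) = X + Y + (u * X - X * u) := by
  have e : (1 + u) * (X + Y - (u * Y - Y * u)) * (1 - u) = X + Y + (u * X - X * u) +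
      (-(u * u * Y) + u * Y * u - Y * (u * u) - u * X * u + u * (u * Y) * u - u * (Y * u) * u) := by
    noncomm_ring
  rw [e, h0, h1, h1, h1, h1]
  simp

variable {R : Type*} [CommRing R] {n : Type*} [Fintype n] [DecidableEq n]

lemma rev_conj {U V : Matrix n n R} (M : Matrix n n R) (h : U * V = 1) :
    charpolyRev (U * M * V) = charpolyRev M := by
  have e1 : (1 : Matrix n n R[X]) - (X : R[X]) • (U * M * V).map C =
      U.map C * (1 - (X : R[X]) • M.map C) * V.map C := by
    have e2 : (U.map C * V.map C : Matrix n n R[X]) = 1 := by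
      rw [← Matrix.map_mul, h]
      ext1 i j
      by_cases hij : i = j
      · subst hij; simp
      · simp [hij]
    rw [mul_sub, sub_mul, mul_one, e2, mul_smul_comm, smul_mul_assoc, ← Matrix.map_mul,
      ← Matrix.map_mul]
  have e3 : (U.map (C : R →+* R[X])).det * (V.map C).det = 1 := by
    rw [← det_mul, ← Matrix.map_mul, h]
    have := RingHom.map_det (C : R →+* R[X]) (1 : Matrix n n R)
    rw [det_one, map_one] at this
    exact this.symm
  have e4 : (U.map (C : R →+* R[X])).det = (U.map (C : R → R[X])).det := rfl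
  rw [charpolyRev, e1, det_mul, det_mul, charpolyRev, mul_comm (U.map C).det, mul_assoc, ← e4, e3,
    mul_one]

end conj

section inv

variable {K : Type*} [Field K] {n : Type*} [Fintype n] [DecidableEq n]
variable {σ : Type*} [Fintype σ]

/-- the coefficients as polynomials in the coordinates -/
noncomputable def cf (A : σ → Matrix n n K) (x : σ → K) (k : ℕ) : MvPolynomial σ K :=
  (charpolyRev (gen A x)).coeff k

lemma cf_aeval {R : Type*} [CommRing R] [Algebra K R] (A : σ → Matrix n n K) (x : σ → K) (k : ℕ)
    (w : σ → R) : MvPolynomial.aeval w (cf A x k) =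
      (charpolyRev ((cmb A x).map (algebraMap K R) + ∑ l, w l • (A l).map (algebraMap K R))).coeff k := by
  have e1 : (gen A x).map ((MvPolynomial.aeval w : MvPolynomial σ K →ₐ[K] R) :
      MvPolynomial σ K →+* R) =
      (cmb A x).map (algebraMap K R) + ∑ l, w l • (A l).map (algebraMap K R) := by
    ext i j
    simp only [gen, Matrix.map_apply, Matrix.add_apply, Matrix.sum_apply, Matrix.smul_apply,
      smul_eq_mul, map_add, map_sum, map_mul]
    congr 1
    · exact MvPolynomial.aeval_C _ _
    · apply Finset.sum_congr rfl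
      intro l _
      congr 1
      · exact MvPolynomial.aeval_X _ _
      · exact MvPolynomial.aeval_C _ _
  rw [← e1, rev_map, coeff_map]
  rfl

lemma cmb_map {R : Type*} [CommRing R] [Algebra K R] (A : σ → Matrix n n K) (z : σ → K) :
    ∑ l, algebraMap K R (z l) • (A l).map (algebraMap K R) = (cmb A z).map (algebraMap K R) := by
  ext i j
  simp only [cmb, Matrix.map_apply, Matrix.sum_apply, Matrix.smul_apply, smul_eq_mul, map_sum,
    map_mul]

/-- **Invariance under conjugation**, in first order. -/
lemma cf_conj {S : Type*} [CommRing S] [Algebra K S] (η : S) (hη : η * η = 0) (A : σ → Matrix n n K) (x z c q : σ → K) (P : Matrix n n K)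
    (hc : cmb A c = P * cmb A x - cmb A x * P) (hq : cmb A q = P * cmb A z - cmb A z * P) (k : ℕ) :
    MvPolynomial.aeval (fun l => X * C (algebraMap K S (z l) +
      algebraMap K S (c l) * η)) (cf A x k) =
    MvPolynomial.aeval (fun l => X * (C (algebraMap K S (z l)) -
      X * C (algebraMap K S (q l) * η))) (cf A x k) := by
  rw [cf_aeval, cf_aeval]
  obtain ⟨α, hα⟩ : ∃ α, α = algebraMap K S[X] := ⟨_, rfl⟩
  have hαC : ∀ a, C (algebraMap K S a) = α a := by
    intro a
    rw [hα, Polynomial.algebraMap_apply]
  obtain ⟨a, ha⟩ : ∃ a : S[X], a = X * C η := ⟨_, rfl⟩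
  have haa : a * a = 0 := by
    rw [ha, mul_mul_mul_comm, ← C_mul, hη, C_0, mul_zero]
  obtain ⟨X', hX'⟩ : ∃ X', X' = (cmb A x).map α := ⟨_, rfl⟩
  obtain ⟨Z', hZ'⟩ : ∃ Z', Z' = (X : S[X]) • (cmb A z).map α := ⟨_, rfl⟩
  obtain ⟨u, hu⟩ : ∃ u, u = a • P.map α := ⟨_, rfl⟩
  have h0 : u * u = 0 := by rw [hu, smul_mul_smul_comm, haa, zero_smul]
  have h1 : ∀ Z, u * Z * u = 0 := by
    intro Z
    rw [hu, smul_mul_assoc, smul_mul_smul_comm, haa, zero_smul]
  have e1 : ∑ l, (X * C (algebraMap K S (z l) +
      algebraMap K S (c l) * η)) • (A l).map α = Z' + (u * X' - X' * u) := by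
    have e2 : u * X' - X' * u = a • (cmb A c).map α := by
      rw [hc, hu, hX', smul_mul_assoc, mul_smul_comm, ← smul_sub]
      congr 1
      ext1 i j
      rw [Matrix.sub_apply, Matrix.map_apply, Matrix.sub_apply, map_sub, ← Matrix.map_mul,
        ← Matrix.map_mul]
      rfl
    rw [e2, hZ', hα, ← cmb_map, ← cmb_map, Finset.smul_sum, Finset.smul_sum,
      ← Finset.sum_add_distrib]
    apply Finset.sum_congr rfl
    intro l _
    rw [smul_smul, smul_smul, ← add_smul, ← hα]
    congr 1
    rw [C_add, C_mul, hαC, hαC, ha]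
    ring
  have e3 : ∑ l, (X * (C (algebraMap K S (z l)) -
      X * C (algebraMap K S (q l) * η))) • (A l).map α =
      Z' - (u * Z' - Z' * u) := by
    have e2 : u * Z' - Z' * u = (X * a) • (cmb A q).map α := by
      rw [hq, hu, hZ', smul_mul_smul_comm, smul_mul_smul_comm, mul_comm a X, ← smul_sub]
      congr 1
      ext1 i j
      rw [Matrix.sub_apply, Matrix.map_apply, Matrix.sub_apply, map_sub, ← Matrix.map_mul,
        ← Matrix.map_mul]
      rfl
    rw [e2, hZ', hα, ← cmb_map, ← cmb_map, Finset.smul_sum, Finset.smul_sum,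
      ← Finset.sum_sub_distrib]
    apply Finset.sum_congr rfl
    intro l _
    rw [smul_smul, smul_smul, ← sub_smul, ← hα]
    congr 1
    rw [C_mul, hαC, hαC, ha]
    ring
  rw [← hα, e1, e3, ← hX', ← add_assoc, ← conj_alg u X' Z' h0 h1, ← add_sub_assoc, rev_conj]
  rw [mul_sub, mul_one, add_mul, one_mul, h0, add_zero, add_sub_cancel_right]

/-- **The leading form is invariant.** -/
lemma lead_inv [CharZero K] (A : σ → Matrix n n K) (x : σ → K) {P : Matrix n n K}
    (hP : ∀ z, ∃ q, cmb A q = P * cmb A z - cmb A z * P) {c : σ → K}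
    (hc : cmb A c = P * cmb A x - cmb A x * P) (k i : ℕ)
    (hf : ∀ m : σ →₀ ℕ, m.degree < i → (cf A x k).coeff m = 0) (z : σ → K) :
    MvPolynomial.eval (fun l => z l + c l) (MvPolynomial.homogeneousComponent i (cf A x k)) =
      MvPolynomial.eval z (MvPolynomial.homogeneousComponent i (cf A x k)) := by
  apply line_const
  intro z
  obtain ⟨q, hq⟩ := hP z
  have h1 := congrArg (fun p => coeff p i) (cf_conj (S := DualNumber K) DualNumber.eps
    DualNumber.eps_mul_eps A x z c q P hc hq k)
  rw [lead_form (S := DualNumber K) _ i hf, lead_form (S := DualNumber K) _ i hf] at h1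
  simp only [coeff_C_zero, coeff_sub, mul_coeff_zero, coeff_X_zero, zero_mul, sub_zero] at h1
  exact h1

end inv

end Pool.Agent.L5helper49.LT
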