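import Pool.Agent.L5helper49.LT.Inv

set_option autoImplicit false

/-!
# Local optimality in Lie triple systems
-/

namespace Pool.Agent.L5helper49.LT

open Matrix Polynomial
open Pool.Agent.L5helper49.PW

section

variable {K : Type*} [Field K] [CharZero K] {n : Type*} [Fintype n] [DecidableEq n]

/-- the coefficients of the second factor -/
lemma second_factor {𝓢 : Submodule K (Matrix n n K)} (h : Lts 𝓢) (ht : Tr0 𝓢) {N W : Matrix n n K}
    (hN : N ∈ 𝓢) (hn : IsNilpotent N) (hW : W ∈ 𝓢) (b : ℕ) :
    (charpolyRev (gm N W)).coeff b = C ((charpolyRev W).coeff b) * Polynomial.X ^ b := by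
  apply Polynomial.funext
  intro s
  rw [← coe_evalRingHom, ← coeff_map, ← rev_map, gm_eval,
    rev_add_nil h ht hN hn (𝓢.smul_mem s hW), rev_smul, coe_evalRingHom, eval_mul, eval_C,
    eval_pow, eval_X, mul_comm]

variable {𝓛 : Submodule K (Matrix n n K)} {X e : Matrix n n K} {q : K[X]}

/-- the coefficients on the elements which commute with `e` -/
lemma Fit.low (F : Fit X e q) (h : Lts 𝓛) (hX : X ∈ 𝓛) (ht : Tr0 (cut 𝓛 e)) {Z : Matrix n n K}
    (hZ : Z ∈ cen 𝓛 e) (j : ℕ) : (Polynomial.X : K[X]) ^ (j + 1) ∣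
      (charpolyRev (gm X Z)).coeff ((charpolyRev X).natDegree + j) -
      (charpolyRev (gm (e * X) (e * Z))).coeff (charpolyRev X).natDegree *
        (C ((charpolyRev ((1 - e) * Z)).coeff j) * Polynomial.X ^ j) := by
  rw [gm_fac F.ee F.eX hZ.2]
  have hs := second_factor (cut_lts h F.ee) ht (mem_cut ⟨hX, F.eX⟩) F.nil (mem_cut hZ)
  obtain ⟨p, hp⟩ : ∃ p, p = charpolyRev (gm (e * X) (e * Z)) := ⟨_, rfl⟩
  obtain ⟨D, hD⟩ : ∃ D, D = charpolyRev (gm ((1 - e) * X) ((1 - e) * Z)) := ⟨_, rfl⟩
  obtain ⟨r, hr⟩ : ∃ r, r = (charpolyRev X).natDegree := ⟨_, rfl⟩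
  have hpa : ∀ a, r < a → p.coeff a = 0 := by
    intro a ha
    rw [hp]
    exact F.coeff_zero Z (by rwa [← hr])
  rw [← hp, ← hD, ← hr, ← hs, ← hD, coeff_mul, ← Finset.add_sum_erase _ _ (a := (r, j))
    (by rw [Finset.HasAntidiagonal.mem_antidiagonal]), add_sub_cancel_left]
  apply Finset.dvd_sum
  rintro ⟨u, v⟩ huv
  rw [Finset.mem_erase, Finset.HasAntidiagonal.mem_antidiagonal] at huv
  obtain ⟨h5, h6⟩ := huv
  simp only at h6 ⊢
  rcases Nat.lt_or_ge r u with h7 | h7
  · rw [hpa u h7, zero_mul]
    exact dvd_zero _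
  · apply Dvd.dvd.mul_left
    rw [hD, hs]
    apply Dvd.dvd.mul_left
    apply pow_dvd_pow
    have h8 : u ≠ r := by
      intro h9
      apply h5
      rw [h9, Prod.mk.injEq]
      exact ⟨rfl, by omega⟩
    omega

lemma Fit.low_lt (F : Fit X e q) (h : Lts 𝓛) (hX : X ∈ 𝓛) (ht : Tr0 (cut 𝓛 e)) {Z : Matrix n n K}
    (hZ : Z ∈ cen 𝓛 e) {i j : ℕ} (hij : i < j) :
    ((charpolyRev (gm X Z)).coeff ((charpolyRev X).natDegree + j)).coeff i = 0 := by
  have h1 := X_pow_dvd_iff.1 (F.low h hX ht hZ j) i (by omega)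
  rw [coeff_sub, ← mul_assoc, coeff_mul_X_pow', if_neg (by omega), sub_zero] at h1
  exact h1

lemma Fit.low_eq (F : Fit X e q) (h : Lts 𝓛) (hX : X ∈ 𝓛) (ht : Tr0 (cut 𝓛 e)) {Z : Matrix n n K}
    (hZ : Z ∈ cen 𝓛 e) (j : ℕ)
    (h0 : ((charpolyRev (gm X Z)).coeff ((charpolyRev X).natDegree + j)).coeff j = 0) :
    (charpolyRev ((1 - e) * Z)).coeff j = 0 := by
  have h1 := X_pow_dvd_iff.1 (F.low h hX ht hZ j) j (by omega)
  rw [coeff_sub, ← mul_assoc, coeff_mul_X_pow', if_pos le_rfl, Nat.sub_self, coeff_mul_C, h0,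
    zero_sub, neg_eq_zero, mul_eq_zero] at h1
  refine h1.resolve_left ?_
  rw [coeff_zero_eq_eval_zero]
  exact F.coeff_lead Z

lemma Fit.low_nil (F : Fit X e q) (h : Lts 𝓛) (hX : X ∈ 𝓛) (ht : Tr0 (cut 𝓛 e)) {Z : Matrix n n K}
    (hZ : Z ∈ cen 𝓛 e) (hn : IsNilpotent ((1 - e) * Z)) {c : ℕ}
    (hc : (charpolyRev X).natDegree < c) : (charpolyRev (gm X Z)).coeff c = 0 := by
  have hs := second_factor (cut_lts h F.ee) ht (mem_cut ⟨hX, F.eX⟩) F.nil (mem_cut hZ)
  rw [rev_nil hn] at hs
  have h1 : charpolyRev (gm ((1 - e) * X) ((1 - e) * Z)) = 1 := by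
    ext1 b
    rw [hs, coeff_one, coeff_one]
    split_ifs with hb
    · rw [hb, C_1, _root_.pow_zero, mul_one]
    · rw [C_0, zero_mul]
  rw [gm_fac F.ee F.eX hZ.2, h1, mul_one]
  exact F.coeff_zero Z hc

variable {σ : Type*} [Fintype σ]

omit [CharZero K] in
lemma cf_line (A : σ → Matrix n n K) (x w : σ → K) (k : ℕ) :
    MvPolynomial.aeval (fun l => (Polynomial.X : K[X]) * C (w l)) (cf A x k) =
      (charpolyRev (gm (cmb A x) (cmb A w))).coeff k := by
  rw [cf_aeval, gm]
  congr 3
  have h1 := cmb_map (R := K[X]) A w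
  have h2 : (cmb A w).map (C : K → K[X]) = (cmb A w).map (algebraMap K K[X]) := rfl
  rw [h2, ← h1, Finset.smul_sum]
  apply Finset.sum_congr rfl
  intro l _
  rw [smul_smul]
  rfl

omit [CharZero K] in
lemma lead_line (A : σ → Matrix n n K) (x w : σ → K) (k i : ℕ)
    (hf : ∀ m : σ →₀ ℕ, m.degree < i → (cf A x k).coeff m = 0) :
    MvPolynomial.eval w (MvPolynomial.homogeneousComponent i (cf A x k)) =
      ((charpolyRev (gm (cmb A x) (cmb A w))).coeff k).coeff i := by
  rw [← cf_line, lead_form _ i hf]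
  simp only [coeff_C_zero]
  rfl

omit [CharZero K] in
lemma cmb_add (A : σ → Matrix n n K) (x y : σ → K) :
    cmb A (fun l => x l + y l) = cmb A x + cmb A y := by
  simp only [cmb, add_smul, Finset.sum_add_distrib]

omit [CharZero K] in
lemma cmb_mem (A : σ → Matrix n n K) (y : σ → K) :
    cmb A y ∈ Submodule.span K (Set.range A) :=
  Submodule.sum_mem _ fun l _ => Submodule.smul_mem _ _ (Submodule.subset_span ⟨l, rfl⟩)

omit [CharZero K] in
lemma exists_cmb (A : σ → Matrix n n K) {M : Matrix n n K}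
    (h : M ∈ Submodule.span K (Set.range A)) : ∃ z, cmb A z = M :=
  (Submodule.mem_span_range_iff_exists_fun K).1 h

/-- **The main theorem.** -/
theorem main [DecidableEq σ] (A : σ → Matrix n n K) (hA : Lts (Submodule.span K (Set.range A)))
    (x : σ → K) (S : Finset K) (hS : Fintype.card n < S.card)
    (h0 : ∀ y : σ → K, (∀ l, y l = x l ∨ y l ∈ S) →
      (∃ s : Finset σ, s.card ≤ 2 ∧ ∀ l ∉ s, y l = x l) →
      (cmb A y ^ Fintype.card n).rank ≤ (cmb A x ^ Fintype.card n).rank) (y : σ → K) :
    (cmb A y ^ Fintype.card n).rank ≤ (cmb A x ^ Fintype.card n).rank := by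
  classical
  simp only [rank_pow] at h0 ⊢
  obtain ⟨𝓛, h𝓛⟩ : ∃ 𝓛, 𝓛 = Submodule.span K (Set.range A) := ⟨_, rfl⟩
  rw [← h𝓛] at hA
  have hX : cmb A x ∈ 𝓛 := by rw [h𝓛]; exact cmb_mem A x
  obtain ⟨e, q, F⟩ := exists_fit (cmb A x)
  obtain ⟨r, hr⟩ : ∃ r, r = (charpolyRev (cmb A x)).natDegree := ⟨_, rfl⟩
  -- the trace form
  have hho := fun z (c : ℕ) hc => high_order 2 A x S hS h0 z (c := c) hc
  have ht : Tr0 (cut 𝓛 e) := by
    rintro _ ⟨Z, hZ, rfl⟩
    obtain ⟨z, hz⟩ := exists_cmb A (M := Z) (by rw [← h𝓛]; exact hZ.1)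
    have h1 := F.trace_zero 2 (by omega) hZ.2 (fun c hc => by
      have h2 := hho z c hc
      rw [hz] at h2
      exact h2)
    rw [sq] at h1
    exact h1
  -- the decomposition of the coordinate vectors
  have hdec : ∀ l, ∃ W ∈ cen 𝓛 e, ∃ V ∈ 𝓛, A l = W + (cmb A x * (cmb A x * V - V * cmb A x) -
      (cmb A x * V - V * cmb A x) * cmb A x) := by
    intro l
    apply F.decomp hA hX
    rw [h𝓛]
    exact Submodule.subset_span ⟨l, rfl⟩
  choose W hW V hV hAl using hdec
  have hsp : ∀ z : σ → K, ∃ (w c : σ → K) (P : Matrix n n K), (∀ l, z l = w l + c l) ∧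
      cmb A w = ∑ l, z l • W l ∧ P ∈ kk 𝓛 ∧ cmb A c = P * cmb A x - cmb A x * P := by
    intro z
    obtain ⟨w, hw⟩ := exists_cmb A (M := ∑ l, z l • W l) (by
      rw [← h𝓛]
      exact Submodule.sum_mem _ fun l _ => Submodule.smul_mem _ _ (hW l).1)
    refine ⟨w, fun l => z l - w l, -∑ l, z l • (cmb A x * V l - V l * cmb A x),
      fun l => by ring, hw, ?_, ?_⟩
    · exact Submodule.neg_mem _ (Submodule.sum_mem _ fun l _ =>
        Submodule.smul_mem _ _ (comm_mem_kk hX (hV l)))
    · have h1 : cmb A (fun l => z l - w l) = cmb A z - cmb A w := by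
        simp only [cmb, sub_smul, Finset.sum_sub_distrib]
      have h2 : cmb A z = ∑ l, z l • W l + ∑ l, z l • (cmb A x * (cmb A x * V l - V l * cmb A x) -
          (cmb A x * V l - V l * cmb A x) * cmb A x) := by
        rw [← Finset.sum_add_distrib, cmb]
        apply Finset.sum_congr rfl
        intro l _
        rw [← smul_add]
        congr 1
        exact hAl l
      rw [h1, hw, h2, add_sub_cancel_left, neg_mul, mul_neg, sub_neg_eq_add, Finset.sum_mul,
        Finset.mul_sum, neg_add_eq_sub, ← Finset.sum_sub_distrib]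
      apply Finset.sum_congr rfl
      intro l _
      rw [mul_smul_comm, smul_mul_assoc, smul_sub]
  have hWz : ∀ z : σ → K, (∑ l, z l • W l) ∈ cen 𝓛 e := fun z =>
    Submodule.sum_mem _ fun l _ => Submodule.smul_mem _ _ (hW l)
  -- the leading forms
  have hlead : ∀ (k i : ℕ), (∀ m : σ →₀ ℕ, m.degree < i → (cf A x k).coeff m = 0) → ∀ z : σ → K,
      MvPolynomial.eval z (MvPolynomial.homogeneousComponent i (cf A x k)) =
        ((charpolyRev (gm (cmb A x) (∑ l, z l • W l))).coeff k).coeff i := by
    intro k i hf z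
    obtain ⟨w, c, P, hz, hw, hP, hc⟩ := hsp z
    rw [show z = fun l => w l + c l from funext hz, lead_inv A x (P := P) ?_ hc k i hf w,
      lead_line A x w k i hf, hw, show (fun l => w l + c l) = z from (funext hz).symm]
    intro z'
    apply exists_cmb A
    rw [← h𝓛]
    exact hA.act hP (by rw [h𝓛]; exact cmb_mem A z')
  have hstep : ∀ (k i : ℕ), (∀ m : σ →₀ ℕ, m.degree < i → (cf A x k).coeff m = 0) →
      (∀ z : σ → K, ((charpolyRev (gm (cmb A x) (∑ l, z l • W l))).coeff k).coeff i = 0) →
      ∀ m : σ →₀ ℕ, m.degree < i + 1 → (cf A x k).coeff m = 0 := by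
    intro k i hf h1 m hm
    rcases Nat.lt_or_ge m.degree i with h2 | h2
    · exact hf m h2
    · have h3 : MvPolynomial.homogeneousComponent i (cf A x k) = 0 := by
        apply MvPolynomial.funext
        intro z
        rw [hlead k i hf, h1, map_zero]
      have h4 := congrArg (MvPolynomial.coeff m) h3
      rw [MvPolynomial.coeff_homogeneousComponent, if_pos (by omega), MvPolynomial.coeff_zero] at h4
      exact h4
  have hord : ∀ (j i : ℕ), i ≤ j → ∀ m : σ →₀ ℕ, m.degree < i → (cf A x (r + j)).coeff m = 0 := by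
    intro j i
    induction i with
    | zero => intro _ m hm; omega
    | succ i ih =>
      intro hij
      apply hstep _ _ (ih (by omega))
      intro z
      rw [hr]
      exact F.low_lt hA hX ht (hWz z) (by omega)
  -- the coordinate vectors
  have hnil : ∀ l, IsNilpotent ((1 - e) * W l) := by
    intro l
    apply nil_of_rev
    intro j hj
    have hz1 : ∑ l', (Pi.single l 1 : σ → K) l' • W l' = W l := by
      rw [Finset.sum_eq_single l]
      · rw [Pi.single_eq_same, one_smul]
      · intro l' _ hl'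
        rw [Pi.single_eq_of_ne hl', zero_smul]
      · intro h; exact absurd (Finset.mem_univ _) h
    apply F.low_eq hA hX ht (hW l) j
    have h1 := hlead (r + j) j (hord j j le_rfl) (Pi.single l 1)
    rw [hz1, hr] at h1
    rw [← h1, ← hr, lead_line A x _ _ _ (hord j j le_rfl), ← cf_line]
    -- the polynomial vanishes on the line
    have h2 : MvPolynomial.aeval (fun l' => (Polynomial.X : K[X]) * C ((Pi.single l 1 : σ → K) l'))
        (cf A x (r + j)) = 0 := by
      rw [(cf A x (r + j)).as_sum, map_sum]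
      apply Finset.sum_eq_zero
      intro m _
      rw [MvPolynomial.aeval_monomial]
      by_cases hm : ∀ l', l' ∉ ({l} : Finset σ) → m l' = 0
      · have h3 : (cf A x (r + j)).coeff m = 0 := by
          refine coeff_eq_zero_of_grid {l} _ (fun l => S.image fun s => s - x l) (Fintype.card n)
            (DB_gen A x _) ?_ ?_ m hm
          · intro l
            rw [Finset.card_image_of_injective]
            · exact hS
            · intro s t h
              simpa using h
          · intro z hz
            have e2 : ∀ w : σ → K, MvPolynomial.eval w ((charpolyRev (gen A x)).coeff (r + j)) =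
                (charpolyRev (cmb A fun l => x l + w l)).coeff (r + j) := by
              intro w
              rw [← gen_eval]
              have e3 : (gen A x).map (MvPolynomial.eval w) =
                (gen A x).map (MvPolynomial.eval w : MvPolynomial σ K →+* K) := rfl
              rw [e3, rev_map, coeff_map]
            show MvPolynomial.eval (fun l' => if l' ∈ ({l} : Finset σ) then z l' else 0)
              ((charpolyRev (gen A x)).coeff (r + j)) = 0
            rw [e2]
            apply coeff_eq_zero_of_natDegree_lt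
            refine lt_of_le_of_lt ?_ (show r < r + j by omega)
            rw [hr]
            apply h0
            · intro l
              split_ifs
              · obtain ⟨s, hs, hs'⟩ := Finset.mem_image.1 (hz l)
                right
                rw [← hs']
                simpa using hs
              · left
                rw [add_zero]
            · refine ⟨{l}, by simp, fun l' hl' => ?_⟩
              rw [if_neg hl', add_zero]
        rw [h3, map_zero, zero_mul]
      · push Not at hm
        obtain ⟨l', hl', hm'⟩ := hm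
        rw [Finsupp.prod_fintype _ _ (fun _ => _root_.pow_zero _),
          Finset.prod_eq_zero (Finset.mem_univ l'), mul_zero]
        rw [Pi.single_eq_of_ne (by simpa using hl'), C_0, mul_zero, zero_pow hm']
    rw [h2, coeff_zero]
  have hnilz : ∀ z : σ → K, IsNilpotent ((1 - e) * ∑ l, z l • W l) := by
    intro z
    have h1 : (1 - e) * ∑ l, z l • W l = ∑ l, z l • ((1 - e) * W l) := by
      rw [Finset.mul_sum]
      apply Finset.sum_congr rfl
      intro l _
      rw [mul_smul_comm]
    rw [h1]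
    exact nil_sum (cut_lts hA F.ee) ht z _ (fun l => mem_cut (hW l)) hnil
  -- the end
  have hall : ∀ (k i : ℕ), r < k → ∀ m : σ →₀ ℕ, m.degree < i → (cf A x k).coeff m = 0 := by
    intro k i hk
    induction i with
    | zero => intro m hm; omega
    | succ i ih =>
      apply hstep _ _ ih
      intro z
      rw [F.low_nil hA hX ht (hWz z) (hnilz z) (by rwa [← hr]), coeff_zero]
  rw [natDegree_le_iff_coeff_eq_zero]
  intro k hk
  have h1 : cf A x k = 0 := by
    ext m
    rw [hall k (m.degree + 1) (by omega) m (by omega), MvPolynomial.coeff_zero]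
  have h2 : cmb A y = cmb A (fun l => x l + (y l - x l)) := by
    congr 1
    funext l
    ring
  have e3 : (gen A x).map (MvPolynomial.eval fun l => y l - x l) =
    (gen A x).map (MvPolynomial.eval (fun l => y l - x l) : MvPolynomial σ K →+* K) := rfl
  rw [h2, ← gen_eval, e3, rev_map, coeff_map]
  have h3 : (charpolyRev (gen A x)).coeff k = 0 := h1
  rw [h3, map_zero]

end

end Pool.Agent.L5helper49.LT
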