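import Mathlib

set_option autoImplicit false

/-!
# Lie triple systems of matrices with vanishing trace form

Let `𝓢` be a space of matrices closed under `[X, [Y, Z]]` such that `tr (X ^ 2) = 0` for all
elements. Then the products of elements of `𝓢` commute up to elements which are invisible for the
trace, and the nilpotent elements of `𝓢` are a subspace.
-/

namespace Pool.Agent.L5helper49.LT

open Matrix

attribute [local instance 100] LieRing.ofAssociativeRing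

variable {K : Type*} [Field K] {n : Type*} [Fintype n] [DecidableEq n]

/-- The space is closed under `[X, [Y, Z]]`. -/
def Lts (𝓢 : Submodule K (Matrix n n K)) : Prop :=
  ∀ X ∈ 𝓢, ∀ Y ∈ 𝓢, ∀ Z ∈ 𝓢, X * (Y * Z - Z * Y) - (Y * Z - Z * Y) * X ∈ 𝓢

/-- the span of the commutators -/
def kk (𝓢 : Submodule K (Matrix n n K)) : Submodule K (Matrix n n K) :=
  Submodule.span K {P | ∃ Y ∈ 𝓢, ∃ Z ∈ 𝓢, P = Y * Z - Z * Y}

variable {𝓢 : Submodule K (Matrix n n K)}

lemma comm_mem_kk {Y Z : Matrix n n K} (hY : Y ∈ 𝓢) (hZ : Z ∈ 𝓢) : Y * Z - Z * Y ∈ kk 𝓢 :=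
  Submodule.subset_span ⟨Y, hY, Z, hZ, rfl⟩

lemma Lts.act (h : Lts 𝓢) {P X : Matrix n n K} (hP : P ∈ kk 𝓢) (hX : X ∈ 𝓢) :
    P * X - X * P ∈ 𝓢 := by
  induction hP using Submodule.span_induction with
  | mem P hP =>
    obtain ⟨Y, hY, Z, hZ, rfl⟩ := hP
    have h1 := 𝓢.neg_mem (h X hX Y hY Z hZ)
    rwa [neg_sub] at h1
  | zero => simp
  | add P Q _ _ hP hQ =>
    have e : (P + Q) * X - X * (P + Q) = (P * X - X * P) + (Q * X - X * Q) := by noncomm_ring
    rw [e]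
    exact 𝓢.add_mem hP hQ
  | smul c P _ hP =>
    have e : (c • P) * X - X * (c • P) = c • (P * X - X * P) := by
      rw [smul_mul_assoc, mul_smul_comm, smul_sub]
    rw [e]
    exact 𝓢.smul_mem _ hP

lemma Lts.kk_lie (h : Lts 𝓢) {P Q : Matrix n n K} (hP : P ∈ kk 𝓢) (hQ : Q ∈ kk 𝓢) :
    P * Q - Q * P ∈ kk 𝓢 := by
  induction hQ using Submodule.span_induction with
  | mem Q hQ =>
    obtain ⟨Y, hY, Z, hZ, rfl⟩ := hQ
    have e : P * (Y * Z - Z * Y) - (Y * Z - Z * Y) * P =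
        ((P * Y - Y * P) * Z - Z * (P * Y - Y * P)) +
          (Y * (P * Z - Z * P) - (P * Z - Z * P) * Y) := by noncomm_ring
    rw [e]
    exact (kk 𝓢).add_mem (comm_mem_kk (h.act hP hY) hZ) (comm_mem_kk hY (h.act hP hZ))
  | zero => simp
  | add Q R _ _ hQ hR =>
    have e : P * (Q + R) - (Q + R) * P = (P * Q - Q * P) + (P * R - R * P) := by noncomm_ring
    rw [e]
    exact (kk 𝓢).add_mem hQ hR
  | smul c Q _ hQ =>
    have e : P * (c • Q) - (c • Q) * P = c • (P * Q - Q * P) := by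
      rw [smul_mul_assoc, mul_smul_comm, smul_sub]
    rw [e]
    exact (kk 𝓢).smul_mem _ hQ

/-- the trace form vanishes -/
def Tr0 (𝓢 : Submodule K (Matrix n n K)) : Prop := ∀ X ∈ 𝓢, (X * X).trace = 0

lemma Tr0.polar [CharZero K] (ht : Tr0 𝓢) {X Y : Matrix n n K} (hX : X ∈ 𝓢) (hY : Y ∈ 𝓢) :
    (X * Y).trace = 0 := by
  have h1 := ht (X + Y) (𝓢.add_mem hX hY)
  rw [add_mul, mul_add, mul_add, trace_add, trace_add, trace_add, ht X hX, ht Y hY,
    Matrix.trace_mul_comm Y X] at h1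
  have h2 : (2 : K) * (X * Y).trace = 0 := by linear_combination h1
  exact (mul_eq_zero.1 h2).resolve_left two_ne_zero

lemma Tr0.kk [CharZero K] (h : Lts 𝓢) (ht : Tr0 𝓢) {P Q : Matrix n n K} (hP : P ∈ kk 𝓢)
    (hQ : Q ∈ LT.kk 𝓢) : (P * Q).trace = 0 := by
  induction hP using Submodule.span_induction with
  | mem P hP =>
    obtain ⟨Y, hY, Z, hZ, rfl⟩ := hP
    have h1 := ht.polar hY (h.act hQ hZ)
    have e : ((Y * Z - Z * Y) * Q).trace = -(Y * (Q * Z - Z * Q)).trace := by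
      rw [sub_mul, mul_sub, trace_sub, trace_sub, mul_assoc, mul_assoc, ← mul_assoc Y Q Z,
        Matrix.trace_mul_comm (Y * Q) Z]
      ring
    rw [e, h1, neg_zero]
  | zero => simp
  | add P R _ _ hP hR => rw [add_mul, trace_add, hP, hR, add_zero]
  | smul c P _ hP => rw [smul_mul_assoc, trace_smul, hP, smul_zero]

/-! ### The doubled Lie algebra -/

/-- the Lie algebra of all `(P + Y) ⊕ (P - Y)` -/
def hat (h : Lts 𝓢) : LieSubalgebra K (Matrix (n ⊕ n) (n ⊕ n) K) where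
  carrier := {M | ∃ P ∈ kk 𝓢, ∃ Y ∈ 𝓢, M = fromBlocks (P + Y) 0 0 (P - Y)}
  zero_mem' := ⟨0, (kk 𝓢).zero_mem, 0, 𝓢.zero_mem, by simp⟩
  add_mem' := by
    rintro _ _ ⟨P, hP, Y, hY, rfl⟩ ⟨Q, hQ, Z, hZ, rfl⟩
    refine ⟨P + Q, (kk 𝓢).add_mem hP hQ, Y + Z, 𝓢.add_mem hY hZ, ?_⟩
    rw [fromBlocks_add, add_zero, add_add_add_comm, add_sub_add_comm]
  smul_mem' := by
    rintro c _ ⟨P, hP, Y, hY, rfl⟩
    refine ⟨c • P, (kk 𝓢).smul_mem _ hP, c • Y, 𝓢.smul_mem _ hY, ?_⟩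
    rw [fromBlocks_smul, smul_zero, smul_add, smul_sub]
  lie_mem' := by
    rintro _ _ ⟨P, hP, Y, hY, rfl⟩ ⟨Q, hQ, Z, hZ, rfl⟩
    refine ⟨(P * Q - Q * P) + (Y * Z - Z * Y), (kk 𝓢).add_mem (h.kk_lie hP hQ) (comm_mem_kk hY hZ),
      (P * Z - Z * P) - (Q * Y - Y * Q), 𝓢.sub_mem (h.act hP hZ) (h.act hQ hY), ?_⟩
    rw [Ring.lie_def, fromBlocks_multiply, fromBlocks_multiply, sub_eq_add_neg, fromBlocks_neg,
      fromBlocks_add]
    simp only [mul_zero, zero_mul, add_zero, zero_add, neg_zero]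
    congr 1 <;> noncomm_ring

lemma hat_trace [CharZero K] (h : Lts 𝓢) (ht : Tr0 𝓢) :
    LieModule.traceForm K (hat h) (n ⊕ n → K) = 0 := by
  ext ⟨x, hx⟩ ⟨y, hy⟩
  rw [LieModule.traceForm_apply_apply]
  have e : ∀ z : hat h, LieModule.toEnd K (hat h) (n ⊕ n → K) z = Matrix.toLin' (z : Matrix _ _ K) := by
    intro z
    ext
    rfl
  rw [e, e, ← Matrix.toLin'_mul, Matrix.trace_toLin'_eq]
  obtain ⟨P, hP, Y, hY, rfl⟩ := hx
  obtain ⟨Q, hQ, Z, hZ, rfl⟩ := hy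
  have tfb : ∀ U V : Matrix n n K, (fromBlocks U 0 0 V).trace = U.trace + V.trace := by
    intro U V
    simp [Matrix.trace, Fintype.sum_sum_type]
  simp only [fromBlocks_multiply, mul_zero, zero_mul, add_zero, zero_add, LinearMap.zero_apply]
  rw [tfb]
  have e2 : (P + Y) * (Q + Z) + (P - Y) * (Q - Z) = (P * Q + P * Q) + (Y * Z + Y * Z) := by
    noncomm_ring
  rw [← trace_add, e2, trace_add, trace_add, trace_add, Tr0.kk h ht hP hQ, ht.polar hY hZ]
  simp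

/-- **Products with a commutator are nilpotent.** -/
lemma nil_word [CharZero K] (h : Lts 𝓢) (ht : Tr0 𝓢) (l : List (Matrix n n K))
    (hl : ∀ X ∈ l, X ∈ 𝓢) {a b : Matrix n n K} (ha : a ∈ 𝓢) (hb : b ∈ 𝓢) :
    IsNilpotent (l.prod * (a * b - b * a)) := by
  have h1 := LieModule.isNilpotent_derivedSeries_of_traceForm_eq_zero (hat_trace h ht)
  obtain ⟨I, hI⟩ : ∃ I, I = LieAlgebra.derivedSeries K (hat h) 1 := ⟨_, rfl⟩
  rw [← hI] at h1
  obtain ⟨N, hN⟩ := LieModule.IsNilpotent.nilpotent (R := K) (L := I) (M := n ⊕ n → K)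
  have hbot : I.lcs (n ⊕ n → K) N = ⊥ := by
    rw [← LieSubmodule.toSubmodule_inj, I.coe_lcs_eq, hN]
    rfl
  -- the words preserve the series
  have hmem : ∀ Y ∈ 𝓢, fromBlocks Y 0 0 (-Y) ∈ hat h := by
    intro Y hY
    exact ⟨0, (kk 𝓢).zero_mem, Y, hY, by simp⟩
  have hword : ∀ l : List (Matrix n n K), (∀ X ∈ l, X ∈ 𝓢) → ∀ k, ∀ m ∈ I.lcs (n ⊕ n → K) k,
      (fromBlocks l.prod 0 0 (l.map fun X => -X).prod).mulVec m ∈ I.lcs (n ⊕ n → K) k := by
    intro l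
    induction l with
    | nil =>
      intro _ k m hm
      simpa using hm
    | cons Y l ih =>
      intro hl k m hm
      have e1 : fromBlocks (Y :: l).prod 0 0 ((Y :: l).map fun X => -X).prod =
          fromBlocks Y 0 0 (-Y) * fromBlocks l.prod 0 0 (l.map fun X => -X).prod := by
        rw [fromBlocks_multiply]
        simp
      rw [e1, ← mulVec_mulVec]
      have h2 := ih (fun X hX => hl X (List.mem_cons_of_mem _ hX)) k m hm
      exact LieSubmodule.lie_mem (I.lcs (n ⊕ n → K) k)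
        (x := (⟨_, hmem Y (hl Y List.mem_cons_self)⟩ : hat h)) h2
  -- the commutator
  obtain ⟨x, hx⟩ : ∃ x : hat h, x = ⁅(⟨_, hmem a ha⟩ : hat h), (⟨_, hmem b hb⟩ : hat h)⁆ := ⟨_, rfl⟩
  have hxI : x ∈ I := by
    rw [hI, hx, LieAlgebra.derivedSeries_def, LieAlgebra.derivedSeriesOfIdeal_succ,
      LieAlgebra.derivedSeriesOfIdeal_zero]
    exact LieSubmodule.lie_mem_lie (LieSubmodule.mem_top _) (LieSubmodule.mem_top _)
  have hxc : (x : Matrix (n ⊕ n) (n ⊕ n) K) = fromBlocks (a * b - b * a) 0 0 (a * b - b * a) := by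
    rw [hx, LieSubalgebra.coe_bracket, Ring.lie_def, fromBlocks_multiply, fromBlocks_multiply,
      sub_eq_add_neg, fromBlocks_neg, fromBlocks_add]
    simp only [mul_zero, zero_mul, add_zero, zero_add, neg_zero, neg_mul_neg]
    rw [← sub_eq_add_neg]
  obtain ⟨T, hT⟩ : ∃ T, T = fromBlocks l.prod 0 0 (l.map fun X => -X).prod *
    (x : Matrix (n ⊕ n) (n ⊕ n) K) := ⟨_, rfl⟩
  have hTk : ∀ k, ∀ m ∈ I.lcs (n ⊕ n → K) k, T.mulVec m ∈ I.lcs (n ⊕ n → K) (k + 1) := by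
    intro k m hm
    rw [hT, ← mulVec_mulVec]
    apply hword l hl
    rw [LieIdeal.lcs_succ]
    exact LieSubmodule.lie_mem_lie hxI hm
  have hTN : ∀ k, ∀ m, (T ^ k).mulVec m ∈ I.lcs (n ⊕ n → K) k := by
    intro k
    induction k with
    | zero =>
      intro m
      rw [LieIdeal.lcs_zero]
      exact LieSubmodule.mem_top _
    | succ k ih =>
      intro m
      rw [pow_succ', ← mulVec_mulVec]
      exact hTk k _ (ih m)
  have hT0 : T ^ N = 0 := by
    apply Matrix.mulVec_injective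
    funext m
    have h2 := hTN N m
    rw [hbot, LieSubmodule.mem_bot] at h2
    rw [h2, zero_mulVec]
  refine ⟨N, ?_⟩
  have e2 : ∀ k, ∃ D, T ^ k = fromBlocks ((l.prod * (a * b - b * a)) ^ k) 0 0 D := by
    intro k
    induction k with
    | zero => exact ⟨1, by rw [pow_zero, pow_zero, fromBlocks_one]⟩
    | succ k ih =>
      obtain ⟨D, hD⟩ := ih
      refine ⟨D * ((l.map fun X => -X).prod * (a * b - b * a)), ?_⟩
      rw [pow_succ, hD, hT, hxc, fromBlocks_multiply, fromBlocks_multiply, pow_succ]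
      simp
  obtain ⟨D, hD⟩ := e2 N
  rw [hT0, ← fromBlocks_zero, fromBlocks_inj] at hD
  exact hD.1.symm

end Pool.Agent.L5helper49.LT
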