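import Pool.Agent.L5helper49.LT.Alg0
import Pool.Agent.L5helper49.PW.Opt

set_option autoImplicit false

/-!
# The decomposition with respect to an element
-/

namespace Pool.Agent.L5helper49.LT

open Matrix Polynomial
open Pool.Agent.L5helper49.PW

section fit

variable {K : Type*} [Field K] {n : Type*} [Fintype n] [DecidableEq n]

/-- the elements which commute with `e` -/
def cen (𝓛 : Submodule K (Matrix n n K)) (e : Matrix n n K) : Submodule K (Matrix n n K) where
  carrier := {Z | Z ∈ 𝓛 ∧ Commute e Z}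
  zero_mem' := ⟨𝓛.zero_mem, Commute.zero_right e⟩
  add_mem' := fun h h' => ⟨𝓛.add_mem h.1 h'.1, h.2.add_right h'.2⟩
  smul_mem' := fun c _ h => ⟨𝓛.smul_mem c h.1, h.2.smul_right c⟩

/-- their parts in the kernel of `e` -/
def cut (𝓛 : Submodule K (Matrix n n K)) (e : Matrix n n K) : Submodule K (Matrix n n K) :=
  (cen 𝓛 e).map (LinearMap.mulLeft K (1 - e))

lemma mem_cut {𝓛 : Submodule K (Matrix n n K)} {e Z : Matrix n n K} (h : Z ∈ cen 𝓛 e) :
    (1 - e) * Z ∈ cut 𝓛 e := ⟨Z, h, rfl⟩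

lemma gg {e : Matrix n n K} (he : e * e = e) : (1 - e) * (1 - e) = 1 - e := by
  have e1 : (1 - e) * (1 - e) = 1 - e - e + e * e := by noncomm_ring
  rw [e1, he]
  abel

lemma g_mul {e Y Z : Matrix n n K} (he : e * e = e) (hY : Commute e Y) :
    ((1 - e) * Y) * ((1 - e) * Z) = (1 - e) * (Y * Z) := by
  have h1 : Commute (1 - e) Y := (Commute.one_left Y).sub_left hY
  rw [mul_assoc, ← mul_assoc Y, ← h1.eq, mul_assoc, ← mul_assoc, gg he]

lemma cut_lts {𝓛 : Submodule K (Matrix n n K)} {e : Matrix n n K} (h : Lts 𝓛) (he : e * e = e) :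
    Lts (cut 𝓛 e) := by
  rintro _ ⟨X, hX, rfl⟩ _ ⟨Y, hY, rfl⟩ _ ⟨Z, hZ, rfl⟩
  simp only [LinearMap.mulLeft_apply]
  rw [g_mul he hY.2, g_mul he hZ.2, ← mul_sub, g_mul he hX.2,
    g_mul he ((hY.2.mul_right hZ.2).sub_right (hZ.2.mul_right hY.2)), ← mul_sub]
  apply mem_cut
  refine ⟨h X hX.1 Y hY.1 Z hZ.1, ?_⟩
  have h1 : Commute e (Y * Z - Z * Y) := (hY.2.mul_right hZ.2).sub_right (hZ.2.mul_right hY.2)
  exact (hX.2.mul_right h1).sub_right (h1.mul_right hX.2)

/-- the decomposition of Fitting -/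
structure Fit (X e : Matrix n n K) (q : K[X]) : Prop where
  he : aeval X (Polynomial.X * q) = e
  ee : e * e = e
  eX : Commute e X
  nil : IsNilpotent ((1 - e) * X)

variable {X e T W : Matrix n n K} {q : K[X]}

lemma exists_fit (X : Matrix n n K) : ∃ (e : Matrix n n K) (q : K[X]), Fit X e q := by
  obtain ⟨q, e, h1, h2, h3, h4⟩ := fitting le_rfl X
  rw [pow_one] at h1
  exact ⟨e, q, h1, h2, h3, h4⟩

lemma Fit.pow (F : Fit X e q) (k : ℕ) : ∃ H : Matrix n n K, e ^ k = X ^ k * H ∧ e ^ k = H * X ^ k := by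
  refine ⟨aeval X (q ^ k), ?_, ?_⟩
  · rw [← F.he, ← map_pow, mul_pow, map_mul, map_pow, aeval_X]
  · rw [← F.he, ← map_pow, mul_pow, mul_comm, map_mul, map_pow _ Polynomial.X, aeval_X]

lemma Fit.pow_zero (F : Fit X e q) : ∃ k : ℕ, (1 - e) ^ k * X ^ k = 0 ∧ X ^ k * (1 - e) ^ k = 0 := by
  obtain ⟨k, hk⟩ := F.nil
  have h1 : Commute (1 - e) X := (Commute.one_left X).sub_left F.eX
  refine ⟨k, ?_, ?_⟩
  · rw [← h1.mul_pow, hk]
  · rw [← (h1.pow_pow k k).eq, ← h1.mul_pow, hk]

lemma pow_mul_of (h : e * T = T) (k : ℕ) : e ^ k * T = T := by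
  induction k with
  | zero => rw [_root_.pow_zero, one_mul]
  | succ k ih => rw [pow_succ, mul_assoc, h, ih]

lemma mul_pow_of (h : T * e = T) (k : ℕ) : T * e ^ k = T := by
  induction k with
  | zero => rw [_root_.pow_zero, mul_one]
  | succ k ih => rw [pow_succ', ← mul_assoc, h, ih]

lemma Fit.inj_left (F : Fit X e q) (h1 : e * T = T) (h2 : T * (1 - e) = T) (h3 : Commute X T) :
    T = 0 := by
  obtain ⟨k, hk, -⟩ := F.pow_zero
  obtain ⟨H, -, hH⟩ := F.pow k
  have h4 : T * X ^ k = 0 := by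
    rw [← mul_pow_of h2 k, mul_assoc, hk, mul_zero]
  rw [← (h3.pow_left k).eq] at h4
  rw [← pow_mul_of h1 k, hH, mul_assoc, h4, mul_zero]

lemma Fit.inj_right (F : Fit X e q) (h1 : (1 - e) * T = T) (h2 : T * e = T) (h3 : Commute X T) :
    T = 0 := by
  obtain ⟨k, -, hk⟩ := F.pow_zero
  obtain ⟨H, hH, -⟩ := F.pow k
  have h4 : X ^ k * T = 0 := by
    rw [← pow_mul_of h1 k, ← mul_assoc, hk, zero_mul]
  rw [(h3.pow_left k).eq] at h4
  rw [← mul_pow_of h2 k, hH, ← mul_assoc, h4, zero_mul]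

/-- the commutator with `X` -/
def ad (X : Matrix n n K) : Module.End K (Matrix n n K) :=
  LinearMap.mulLeft K X - LinearMap.mulRight K X

lemma ad_apply (X Y : Matrix n n K) : ad X Y = X * Y - Y * X := rfl

lemma Fit.comm_of_ad (F : Fit X e q) (m : ℕ) : ∀ W : Matrix n n K, (ad X ^ m) W = 0 →
    e * W * (1 - e) = 0 ∧ (1 - e) * W * e = 0 := by
  have hg : Commute (1 - e) X := (Commute.one_left X).sub_left F.eX
  have gg' := gg F.ee
  induction m with
  | zero =>
    intro W hW
    rw [_root_.pow_zero, Module.End.one_apply] at hW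
    rw [hW]
    simp
  | succ m ih =>
    intro W hW
    rw [pow_succ, Module.End.mul_apply] at hW
    obtain ⟨h1, h2⟩ := ih _ hW
    rw [ad_apply] at h1 h2
    constructor
    · apply F.inj_left
      · rw [← mul_assoc, ← mul_assoc, F.ee]
      · rw [mul_assoc, gg']
      · rw [Commute, SemiconjBy, ← sub_eq_zero]
        have e1 : X * (e * W * (1 - e)) - e * W * (1 - e) * X =
            e * (X * W - W * X) * (1 - e) := by
          rw [mul_assoc (e * W), hg.eq, ← mul_assoc X, ← mul_assoc X, ← F.eX.eq]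
          noncomm_ring
        rw [e1, h1]
    · apply F.inj_right
      · rw [← mul_assoc, ← mul_assoc, gg']
      · rw [mul_assoc, F.ee]
      · rw [Commute, SemiconjBy, ← sub_eq_zero]
        have e1 : X * ((1 - e) * W * e) - (1 - e) * W * e * X =
            (1 - e) * (X * W - W * X) * e := by
          rw [mul_assoc ((1 - e) * W), F.eX.eq, ← mul_assoc X, ← mul_assoc X, ← hg.eq]
          noncomm_ring
        rw [e1, h2]

/-- **The decomposition.** -/
lemma Fit.decomp {𝓛 : Submodule K (Matrix n n K)} (F : Fit X e q) (h : Lts 𝓛) (hX : X ∈ 𝓛)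
    {Y : Matrix n n K} (hY : Y ∈ 𝓛) : ∃ W ∈ cen 𝓛 e, ∃ V ∈ 𝓛,
      Y = W + (X * (X * V - V * X) - (X * V - V * X) * X) := by
  have hD : ∀ V ∈ 𝓛, (ad X * ad X) V ∈ 𝓛 := fun V hV => h X hX X hX V hV
  obtain ⟨D, hDd⟩ : ∃ D : Module.End K 𝓛, D = LinearMap.restrict (ad X * ad X) hD := ⟨_, rfl⟩
  have hDk : ∀ (k : ℕ) (V : 𝓛), (((D ^ k) V : 𝓛) : Matrix n n K) = (ad X ^ (2 * k)) V := by
    intro k
    induction k with
    | zero => intro V; rfl
    | succ k ih =>
      intro V
      rw [pow_succ, Module.End.mul_apply, ih, mul_add, pow_add, Module.End.mul_apply, hDd]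
      rfl
  obtain ⟨N, hN, hN1⟩ := (D.eventually_isCompl_ker_pow_range_pow.and
    (Filter.eventually_ge_atTop 1)).exists
  obtain ⟨k, rfl⟩ := Nat.exists_eq_add_of_le' hN1
  have h1 : (⟨Y, hY⟩ : 𝓛) ∈ LinearMap.ker (D ^ (k + 1)) ⊔ LinearMap.range (D ^ (k + 1)) := by
    rw [hN.sup_eq_top]
    exact Submodule.mem_top
  obtain ⟨W, hW, B, ⟨V, rfl⟩, hWB⟩ := Submodule.mem_sup.1 h1
  refine ⟨W, ⟨W.2, ?_⟩, (D ^ k) V, Submodule.coe_mem _, ?_⟩
  · have h2 := hDk (k + 1) W
    rw [LinearMap.mem_ker.1 hW] at h2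
    obtain ⟨h3, h4⟩ := F.comm_of_ad _ _ h2.symm
    rw [mul_sub, mul_one, sub_eq_zero] at h3
    rw [mul_assoc, sub_mul, one_mul, sub_eq_zero, ← mul_assoc] at h4
    rw [Commute, SemiconjBy, h3, h4]
  · have h2 := congrArg (fun x : 𝓛 => (x : Matrix n n K)) hWB
    simp only [Submodule.coe_add] at h2
    rw [← h2, pow_succ', Module.End.mul_apply]
    congr 1
    rw [hDd]
    rfl

end fit

section fac

variable {K : Type*} [Field K] {n : Type*} [Fintype n] [DecidableEq n]

/-- the matrix `X + ζ Z` -/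
noncomputable def gm (X Z : Matrix n n K) : Matrix n n K[X] := X.map C + (Polynomial.X : K[X]) • Z.map C

lemma gm_eval (X Z : Matrix n n K) (s : K) : (gm X Z).map (evalRingHom s) = X + s • Z := by
  ext i j
  simp [gm, mul_comm s]

lemma mul_gm (e X Z : Matrix n n K) : e.map C * gm X Z = gm (e * X) (e * Z) := by
  rw [gm, gm, mul_add, mul_smul_comm, ← Matrix.map_mul, ← Matrix.map_mul]

lemma gm_mul (e X Z : Matrix n n K) : gm X Z * e.map C = gm (X * e) (Z * e) := by
  rw [gm, gm, add_mul, smul_mul_assoc, ← Matrix.map_mul, ← Matrix.map_mul]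

/-- the factorisation -/
lemma gm_fac {e X Z : Matrix n n K} (he : e * e = e) (hX : Commute e X) (hZ : Commute e Z) :
    charpolyRev (gm X Z) = charpolyRev (gm (e * X) (e * Z)) *
      charpolyRev (gm ((1 - e) * X) ((1 - e) * Z)) := by
  have hgX : Commute (1 - e) X := (Commute.one_left X).sub_left hX
  have hgZ : Commute (1 - e) Z := (Commute.one_left Z).sub_left hZ
  rw [← mul_gm, ← mul_gm, ← rev_add]
  · congr 1
    rw [← add_mul]
    have e1 : e.map C + (1 - e).map C = (1 : Matrix n n K[X]) := by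
      ext1 i j
      rw [Matrix.add_apply, Matrix.map_apply, Matrix.map_apply, ← C_add, Matrix.sub_apply,
        add_sub_cancel]
      by_cases h : i = j
      · subst h; simp
      · simp [h]
    rw [e1, one_mul]
  · have e1 : gm X Z * (1 - e).map C = (1 - e).map C * gm X Z := by
      rw [mul_gm, gm_mul, hgX.eq, hgZ.eq]
    rw [mul_assoc, ← mul_assoc (gm X Z), e1, mul_assoc, ← mul_assoc, ← Matrix.map_mul, mul_sub,
      mul_one, he, sub_self]
    have e2 : (0 : Matrix n n K).map (C : K → K[X]) = 0 := by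
      ext1 i j
      simp
    rw [e2, zero_mul]

/-- the degree of the first factor -/
lemma rev_le_rank (e Y : Matrix n n K) : (charpolyRev (e * Y)).natDegree ≤ e.rank := by
  rw [← rank_pow]
  rcases h : Fintype.card n with _ | k
  · exact (Matrix.rank_le_card_width _).trans (by rw [h]; exact Nat.zero_le _)
  · rw [pow_succ', mul_assoc]
    exact Matrix.rank_mul_le_left _ _

/-- the idempotent has the rank of the stable part -/
lemma Fit.rank_le {X e : Matrix n n K} {q : K[X]} (F : Fit X e q) :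
    e.rank ≤ (charpolyRev X).natDegree := by
  rw [← rank_pow]
  obtain ⟨H, hH, -⟩ := F.pow (Fintype.card n)
  rcases h : Fintype.card n with _ | k
  · exact (Matrix.rank_le_card_width _).trans (by rw [h]; exact Nat.zero_le _)
  · rw [h] at hH
    have h1 : e ^ (k + 1) = e := by
      have := pow_mul_of F.ee k
      rwa [← pow_succ] at this
    rw [h1] at hH
    rw [hH]
    exact Matrix.rank_mul_le_left _ _

/-- the polynomial of the stable part -/
lemma Fit.rev {X e : Matrix n n K} {q : K[X]} (F : Fit X e q) :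
    charpolyRev (e * X) = charpolyRev X := by
  have a1 : (e * X) * ((1 - e) * X) = 0 := by
    rw [F.eX.eq, mul_assoc, ← mul_assoc e, mul_sub, mul_one, F.ee, sub_self, zero_mul, mul_zero]
  have a2 : e * X + (1 - e) * X = X := by rw [← add_mul]; simp
  have a3 := rev_add a1
  rw [a2, rev_nil F.nil, mul_one] at a3
  exact a3.symm

lemma rev_ne_zero (M : Matrix n n K) : charpolyRev M ≠ 0 := by
  intro h4
  have h5 := eval_charpolyRev (M := M)
  rw [h4, eval_zero] at h5
  exact zero_ne_one h5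

variable [CharZero K]

/-- the first factor has no high coefficients -/
lemma Fit.coeff_zero {X e : Matrix n n K} {q : K[X]} (F : Fit X e q) (Z : Matrix n n K) {a : ℕ}
    (ha : (charpolyRev X).natDegree < a) : (charpolyRev (gm (e * X) (e * Z))).coeff a = 0 := by
  apply Polynomial.funext
  intro s
  rw [eval_zero, ← coe_evalRingHom, ← coeff_map, ← rev_map, gm_eval, ← mul_smul_comm, ← mul_add]
  apply coeff_eq_zero_of_natDegree_lt
  exact (rev_le_rank _ _).trans_lt (F.rank_le.trans_lt ha)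

/-- the leading coefficient of the first factor -/
lemma Fit.coeff_lead {X e : Matrix n n K} {q : K[X]} (F : Fit X e q) (Z : Matrix n n K) :
    ((charpolyRev (gm (e * X) (e * Z))).coeff (charpolyRev X).natDegree).eval 0 ≠ 0 := by
  rw [← coe_evalRingHom, ← coeff_map, ← rev_map, gm_eval, zero_smul, add_zero, F.rev]
  exact leadingCoeff_ne_zero.2 (rev_ne_zero X)

/-- **Optimality of order `d` kills the traces of the `d`-th powers.** -/
theorem Fit.trace_zero {X e : Matrix n n K} {q : K[X]} (F : Fit X e q) (d : ℕ) (hd : 1 ≤ d)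
    {Z : Matrix n n K} (hZ : Commute e Z)
    (h3 : ∀ c, (charpolyRev X).natDegree < c →
      (Polynomial.X : K[X]) ^ (d + 1) ∣ (charpolyRev (gm X Z)).coeff c) :
    (((1 - e) * Z) ^ d).trace = 0 := by
  rw [gm_fac F.ee F.eX hZ] at h3
  obtain ⟨p, hp⟩ : ∃ p, p = charpolyRev (gm (e * X) (e * Z)) := ⟨_, rfl⟩
  obtain ⟨D, hD⟩ : ∃ D, D = charpolyRev (gm ((1 - e) * X) ((1 - e) * Z)) := ⟨_, rfl⟩
  obtain ⟨r, hr⟩ : ∃ r, r = (charpolyRev X).natDegree := ⟨_, rfl⟩
  have hpa : ∀ a, r < a → p.coeff a = 0 := by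
    intro a ha
    rw [hp]
    exact F.coeff_zero Z (by rwa [← hr])
  have hpr : IsCoprime ((Polynomial.X : K[X]) ^ (d + 1)) (p.coeff r) := by
    apply IsCoprime.pow_left
    rw [Polynomial.irreducible_X.coprime_iff_not_dvd, Polynomial.X_dvd_iff,
      coeff_zero_eq_eval_zero, hp, hr]
    exact F.coeff_lead Z
  rw [← hp, ← hD, ← hr] at h3
  have key : ∀ j, 1 ≤ j → (Polynomial.X : K[X]) ^ (d + 1) ∣ D.coeff j := by
    have b1 : ∀ k j, 1 ≤ j → D.natDegree + 1 ≤ j + k →
        (Polynomial.X : K[X]) ^ (d + 1) ∣ D.coeff j := by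
      intro k
      induction k with
      | zero =>
        intro j _ hj
        rw [coeff_eq_zero_of_natDegree_lt (by omega)]
        exact dvd_zero _
      | succ k ih =>
        intro j hj hj'
        have b2 := h3 (r + j) (by omega)
        rw [coeff_mul, ← Finset.add_sum_erase _ _ (a := (r, j))
          (by rw [Finset.HasAntidiagonal.mem_antidiagonal])] at b2
        have b3 : (Polynomial.X : K[X]) ^ (d + 1) ∣ ∑ x ∈ (Finset.HasAntidiagonal.antidiagonal
            (r + j)).erase (r, j), p.coeff x.1 * D.coeff x.2 := by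
          apply Finset.dvd_sum
          rintro ⟨u, v⟩ huv
          rw [Finset.mem_erase, Finset.HasAntidiagonal.mem_antidiagonal] at huv
          obtain ⟨h5, h6⟩ := huv
          simp only at h6 ⊢
          rcases Nat.lt_or_ge r u with h7 | h7
          · rw [hpa u h7, zero_mul]
            exact dvd_zero _
          · apply Dvd.dvd.mul_left
            apply ih
            · omega
            · have h8 : u ≠ r := by
                intro h9
                apply h5
                rw [h9, Prod.mk.injEq]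
                exact ⟨rfl, by omega⟩
              omega
        have b4 := (dvd_add_left b3).1 b2
        exact hpr.dvd_of_dvd_mul_left b4
    intro j hj
    exact b1 (D.natDegree + 1) j hj (by omega)
  -- modulo `ζ ^ (d + 1)`
  obtain ⟨π, hπ⟩ : ∃ π : K[X] →+* K[X] ⧸ Ideal.span {(Polynomial.X : K[X]) ^ (d + 1)},
    π = Ideal.Quotient.mk _ := ⟨_, rfl⟩
  have hπ0 : ∀ q : K[X], π q = 0 ↔ (Polynomial.X : K[X]) ^ (d + 1) ∣ q := by
    intro q
    rw [hπ, Ideal.Quotient.eq_zero_iff_mem, Ideal.mem_span_singleton]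
  have c1 : charpolyRev ((gm ((1 - e) * X) ((1 - e) * Z)).map π) = 1 := by
    rw [rev_map, ← hD]
    ext j
    rw [coeff_map, coeff_one]
    split_ifs with hj
    · have c2 := eval_charpolyRev (M := gm ((1 - e) * X) ((1 - e) * Z))
      rw [← hD, ← coeff_zero_eq_eval_zero] at c2
      rw [hj, c2, map_one]
    · rw [hπ0]
      exact key j (by omega)
  have c3 := newton _ c1 (d - 1)
  rw [Nat.sub_add_cancel hd] at c3
  have c4 : ((gm ((1 - e) * X) ((1 - e) * Z)).map π) ^ d =
      (gm ((1 - e) * X) ((1 - e) * Z) ^ d).map π := by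
    have := map_pow (π.mapMatrix : Matrix n n K[X] →+* _) (gm ((1 - e) * X) ((1 - e) * Z)) d
    exact this.symm
  have c5 : (Polynomial.X : K[X]) ^ (d + 1) ∣ (gm ((1 - e) * X) ((1 - e) * Z) ^ d).trace := by
    rw [← hπ0, Matrix.trace, map_sum]
    rw [c4, Matrix.trace] at c3
    exact c3
  have c6 := X_pow_dvd_iff.1 c5 d (by omega)
  rw [Matrix.trace, finsetSum_coeff] at c6
  rw [Matrix.trace, ← c6]
  apply Finset.sum_congr rfl
  intro i _
  exact (top_coeff ((1 - e) * X) ((1 - e) * Z) d i i).2.symm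

end fac

end Pool.Agent.L5helper49.LT
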